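import Pool.Agent.LgpE.Core

/-!
# One direction of slopes
-/

namespace Pool.Agent.LgpE

open Pool.Agent.CTm Pool.Agent.Grm Pool.Agent.Lgp Filter Nat

theorem int_ratio {D M m₁ m E : ℕ} (hm : 0 < m) {c a fv fh : ℚ} {uv vv uh vh : ℕ} {kv kh : ℤ}
    (h1 : c * vv = fv * uv * (m : ℚ) ^ kv) (h2 : a * vh = fh * uh * (m : ℚ) ^ kh) (hk : kh ≤ kv)
    (hvv : vv ∣ m₁ ^ E) (huh : uh ∣ m₁ ^ E) (hdv : fv.den ∣ D) (hnh : fh.num.natAbs ∣ D)
    (hfh : 0 < fh) :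
    ∃ t : ℤ, c * ((D * D * M * m₁ ^ (E + E) : ℕ) : ℚ) = M * t * a := by
  obtain ⟨q1, hq1⟩ := mul_dvd_mul hdv hnh
  obtain ⟨q2, hq2⟩ := mul_dvd_mul hvv huh
  have hmq : (m : ℚ) ≠ 0 := by
    have : (0 : ℚ) < m := by exact_mod_cast hm
    exact this.ne'
  have hnum : ((fh.num.natAbs : ℕ) : ℚ) = fh.num := by
    have h3 : ((fh.num.natAbs : ℕ) : ℤ) = fh.num := Int.natAbs_of_nonneg (Rat.num_pos.2 hfh).le
    have h4 : (((fh.num.natAbs : ℕ) : ℤ) : ℚ) = fh.num := congrArg (fun z : ℤ => (z : ℚ)) h3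
    simpa using h4
  have e1 : fv * (fv.den : ℚ) = fv.num := Rat.mul_den_eq_num fv
  have e2 : fh * (fh.den : ℚ) = fh.num := Rat.mul_den_eq_num fh
  have e3 : (m : ℚ) ^ kv = (m : ℚ) ^ (kv - kh).toNat * (m : ℚ) ^ kh := by
    rw [← zpow_natCast, ← zpow_add₀ hmq]
    congr 1
    omega
  refine ⟨q1 * fv.num * fh.den * q2 * uv * vh * (m : ℤ) ^ (kv - kh).toNat, ?_⟩
  have e4 : ((D * D * M * m₁ ^ (E + E) : ℕ) : ℚ) =
      (fv.den * fh.num * q1) * M * (vv * uh * q2) := by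
    have e5 : ((D * D : ℕ) : ℚ) = fv.den * fh.num * q1 := by
      rw [hq1]
      push_cast [hnum]
      ring
    have e6 : ((m₁ ^ (E + E) : ℕ) : ℚ) = vv * uh * q2 := by
      rw [pow_add, hq2]
      push_cast
      ring
    rw [Nat.cast_mul, Nat.cast_mul (D * D) M, e5, e6]
  rw [e4]
  push_cast
  have e7 : c * (fv.den * fh.num * q1 * M * (vv * uh * q2)) =
      (c * vv) * (fv.den * fh.num * q1 * M * (uh * q2)) := by ring
  have e8 : (M : ℚ) * (q1 * fv.num * fh.den * q2 * uv * vh * (m : ℚ) ^ (kv - kh).toNat) * a =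
      (a * vh) * (M * q1 * fv.num * fh.den * q2 * uv * (m : ℚ) ^ (kv - kh).toNat) := by ring
  rw [e7, e8, h1, h2, e3, ← e1, ← e2]
  ring

/-- one direction of slopes, uniformly recurrent points -/
theorem locAb_of_urec (S : Finset (Equiv.Perm ℤ)) (hS : ∀ s ∈ S, s ∈ CT)
    (hexp : NoExp (S : Set (Equiv.Perm ℤ))) {y : ℕ → ℤ} (hy : Pro y)
    (hU : URec (Subgroup.closure (S : Set (Equiv.Perm ℤ))) y) {m₁ m : ℕ} (hm₁ : 1 ≤ m₁) (hm : 1 ≤ m)
    {F : Finset ℚ} (hF0 : ∀ f ∈ F, 0 < f)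
    (hF : SlIn F m₁ m (Subgroup.closure (S : Set (Equiv.Perm ℤ))) y)
    (hfin : FinKey m₁ (Subgroup.closure (S : Set (Equiv.Perm ℤ))) y) :
    LocAb (Subgroup.closure (S : Set (Equiv.Perm ℤ))) y := by
  classical
  rcases Nat.lt_or_ge m 2 with hm2 | hm2
  · -- `m = 1`
    have hm1 : m = 1 := by omega
    subst hm1
    refine locAb_mixed hm₁ S hS hy F (fun g hg a ha => ?_) hfin
    obtain ⟨f, hf, u, v, e, k, hu, hv, huv⟩ := hF g hg a ha
    refine ⟨f, hf, u, v, e, hu, hv, ?_⟩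
    rw [huv]
    simp
  obtain ⟨M, A, hd⟩ := Pool.Agent.Grm.exists_data S hS
  set H := Subgroup.closure (S : Set (Equiv.Perm ℤ)) with hH
  have hmq : (0 : ℚ) < m := by exact_mod_cast (by omega : 0 < m)
  -- the choices
  have hex : ∀ g ∈ H, ∃ a : ℚ × ℚ, ∃ f ∈ F, ∃ u v e : ℕ, ∃ k : ℤ, 0 < a.1 ∧ Germ y g a ∧
      u ∣ m₁ ^ e ∧ v ∣ m₁ ^ e ∧ a.1 * v = f * u * (m : ℚ) ^ k := by
    intro g hg
    obtain ⟨a, ha0, ha⟩ := exists_germ hd hy hg
    obtain ⟨f, hf, u, v, e, k, hu, hv, huv⟩ := hF g hg a ha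
    exact ⟨a, f, hf, u, v, e, k, ha0, ha, hu, hv, huv⟩
  choose! al f hfF u v e κ hal0 hal hu hv huv using hex
  by_cases hbd : ∃ K : ℕ, ∀ g ∈ H, -(K : ℤ) ≤ κ g ∧ κ g ≤ K
  · -- bounded exponents
    obtain ⟨K, hK⟩ := hbd
    refine locAb_mixed hm₁ S hS hy
      (Finset.image₂ (fun (f : ℚ) (k : ℤ) => f * (m : ℚ) ^ k) F (Finset.Icc (-(K : ℤ)) K))
      (fun g hg a ha => ?_) hfin
    have hau := Germ.unique hy ha (hal g hg)
    refine ⟨f g * (m : ℚ) ^ (κ g), Finset.mem_image₂_of_mem (hfF g hg) (Finset.mem_Icc.2 (hK g hg)),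
      u g, v g, e g, hu g hg, hv g hg, ?_⟩
    rw [hau, huv g hg]
    ring
  push Not at hbd
  -- the minimal and the maximal exponents in the balls
  have hmin : ∀ n : ℕ, ∃ h ∈ ball (S : Set (Equiv.Perm ℤ)) n, ∀ w ∈ ball (S : Set (Equiv.Perm ℤ)) n,
      κ h ≤ κ w := fun n =>
    Set.exists_min_image _ κ (ball_finite S.finite_toSet n) ⟨1, one_mem_ball _ n⟩
  have hmax : ∀ n : ℕ, ∃ g ∈ ball (S : Set (Equiv.Perm ℤ)) n, ∀ w ∈ ball (S : Set (Equiv.Perm ℤ)) n,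
      κ w ≤ κ g := fun n =>
    Set.exists_max_image _ κ (ball_finite S.finite_toSet n) ⟨1, one_mem_ball _ n⟩
  choose h hhb hh using hmin
  choose g hgb hg using hmax
  have hhH : ∀ n, h n ∈ H := fun n => ball_mem (hhb n)
  have hgH : ∀ n, g n ∈ H := fun n => ball_mem (hgb n)
  have hunb : ∀ K : ℕ, ∃ n, (K : ℤ) < κ (g n) - κ (h n) := by
    intro K
    obtain ⟨w, hw, hwK⟩ := hbd (K + (κ 1).natAbs)
    obtain ⟨n, hn⟩ := mem_ball_of_closure hw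
    refine ⟨n, ?_⟩
    have a1 := hh n 1 (one_mem_ball _ n)
    have a2 := hg n 1 (one_mem_ball _ n)
    have a3 := hh n w hn
    have a4 := hg n w hn
    by_cases h5 : -((K + (κ 1).natAbs : ℕ) : ℤ) ≤ κ w
    · have h6 := hwK h5
      push_cast at h6
      have h7 : κ 1 ≤ |κ 1| := le_abs_self _
      omega
    · push_cast at h5
      have h7 : -|κ 1| ≤ κ 1 := neg_abs_le _
      omega
  -- the modulus
  set D : ℕ := ∏ σ ∈ F, (σ.den * σ.num.natAbs) with hD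
  have hD0 : 0 < D := Finset.prod_pos fun σ hσ => Nat.mul_pos σ.den_pos
    (Int.natAbs_pos.2 (Rat.num_pos.2 (hF0 σ hσ)).ne')
  have hDF : ∀ σ ∈ F, (σ.den ∣ D) ∧ (σ.num.natAbs ∣ D) := fun σ hσ =>
    ⟨(Dvd.intro _ rfl).trans (Finset.dvd_prod_of_mem (fun σ : ℚ => σ.den * σ.num.natAbs) hσ),
      (Dvd.intro_left _ rfl).trans (Finset.dvd_prod_of_mem (fun σ : ℚ => σ.den * σ.num.natAbs) hσ)⟩
  set X : ℕ := D * D * M with hX
  have hX0 : 0 < X := Nat.mul_pos (Nat.mul_pos hD0 hD0) hd.pos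
  -- the affine pieces
  have haff : ∀ n, AffAt m₁ X y (h n) (g n * (h n)⁻¹) ((al (g n)).1 / (al (h n)).1) := by
    intro n
    set E := (ball_finite S.finite_toSet n).toFinset.sup e with hE
    have hEb : ∀ w ∈ ball (S : Set (Equiv.Perm ℤ)) n, e w ≤ E := fun w hw =>
      Finset.le_sup (f := e) ((Set.Finite.mem_toFinset _).2 hw)
    refine aff_pair hd hy (J := E + E) (hhb n) (hgb n) (hal _ (hhH n)) (hal0 _ (hhH n))
      (hal _ (hgH n)) ?_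
    intro w hw c hc
    have hwH := ball_mem hw
    have hcu := Germ.unique hy hc (hal w hwH)
    rw [hcu]
    exact int_ratio (by omega) (huv w hwH) (huv _ (hhH n)) (hh n w hw)
      ((hv w hwH).trans (pow_dvd_pow m₁ (hEb w hw)))
      ((hu _ (hhH n)).trans (pow_dvd_pow m₁ (hEb _ (hhb n))))
      (hDF _ (hfF w hwH)).1 (hDF _ (hfF _ (hhH n))).2 (hF0 _ (hfF _ (hhH n)))
  -- pigeonhole
  obtain ⟨α, hα, key, hkey⟩ := hfin.rx hd hy X hX0
  let kk : ℕ → α × F × F := fun n => (key (h n), ⟨f (g n), hfF _ (hgH n)⟩, ⟨f (h n), hfF _ (hhH n)⟩)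
  choose N hN using hunb
  obtain ⟨c, hc⟩ := Finite.exists_infinite_fiber fun K : ℕ => kk (N K)
  have hcinf : {K : ℕ | kk (N K) = c}.Infinite := Set.infinite_coe_iff.1 hc
  set V : Set ℤ := {x | ∃ n, kk n = c ∧ κ (g n) - κ (h n) = x} with hV
  have hVinf : V.Infinite := by
    intro hVfin
    obtain ⟨B, hB⟩ := hVfin.bddAbove
    obtain ⟨K, hK1, hK2⟩ := hcinf.exists_gt B.toNat
    have h1 := hB ⟨N K, hK1, rfl⟩
    have h2 := hN K
    omega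
  obtain ⟨n0, hn0⟩ : ∃ n, kk n = c := by
    obtain ⟨x, n, hn, _⟩ := hVinf.nonempty
    exact ⟨n, hn⟩
  obtain ⟨P, hP, hP2⟩ := syndetic hd hy hU hm₁ hfin hX0 (hhH n0)
  obtain ⟨W, hWV, hWc⟩ := hVinf.exists_subset_card_eq (2 * P.card + 1)
  have hWx : ∀ x ∈ W, ∃ n, kk n = c ∧ κ (g n) - κ (h n) = x := fun x hx => hWV hx
  choose! nn hnn1 hnn2 using hWx
  have hcoin : ∃ x ∈ W, ∃ x' ∈ W, x ≠ x' ∧ ∃ b, RX X m₁ y b (h n0) ∧ ∃ b', RX X m₁ y b' (h n0) ∧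
      (g (nn x) * (h (nn x))⁻¹) * b = (g (nn x') * (h (nn x'))⁻¹) * b' := by
    by_contra hno
    push Not at hno
    have hcount := disj_bound S.finite_toSet hexp (B := {b | RX X m₁ y b (h n0)}) P hP hP2 W
      (fun x => g (nn x) * (h (nn x))⁻¹) (fun x _ => mul_mem (hgH _) (inv_mem (hhH _)))
      (fun x hx x' hx' hxx b hb b' hb' => hno x hx x' hx' hxx b hb b' hb')
    omega
  have hcoin' : ∃ x ∈ W, ∃ x' ∈ W, x < x' ∧ ∃ b, RX X m₁ y b (h n0) ∧ ∃ b', RX X m₁ y b' (h n0) ∧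
      (g (nn x) * (h (nn x))⁻¹) * b = (g (nn x') * (h (nn x'))⁻¹) * b' := by
    obtain ⟨x, hx, x', hx', hne, b, hb, b', hb', heq⟩ := hcoin
    rcases lt_or_gt_of_ne hne with hlt | hlt
    · exact ⟨x, hx, x', hx', hlt, b, hb, b', hb', heq⟩
    · exact ⟨x', hx', x, hx, hlt, b', hb', b, hb, heq.symm⟩
  obtain ⟨x, hx, x', hx', hlt, b, hb, b', hb', heq⟩ := hcoin'
  set n1 := nn x with hn1
  set n2 := nn x' with hn2
  have hk1 := hnn1 x hx
  have hk2 := hnn1 x' hx'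
  have hd1 := hnn2 x hx
  have hd2 := hnn2 x' hx'
  rw [← hn1] at hk1 hd1
  rw [← hn2] at hk2 hd2
  -- the classes of `h n1`, `h n2`
  have hkn : ∀ n, kk n = c → RX X m₁ y (h n) (h n0) := by
    intro n hn
    refine hkey _ (hhH n) _ (hhH n0) ?_
    have h1 : (kk n).1 = (kk n0).1 := by rw [hn, hn0]
    exact h1
  have hR1 := hkn n1 hk1
  have hR2 := hkn n2 hk2
  have hfg : f (g n1) = f (g n2) := by
    have h1 : (kk n1).2.1 = (kk n2).2.1 := by rw [hk1, hk2]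
    exact congrArg Subtype.val h1
  have hfh : f (h n1) = f (h n2) := by
    have h1 : (kk n1).2.2 = (kk n2).2.2 := by rw [hk1, hk2]
    exact congrArg Subtype.val h1
  have haff1 := (haff n1).move hy (hb.trans hy hR1.symm)
  have haff2 := (haff n2).move hy (hb'.trans hy hR2.symm)
  set μ1 : ℚ := (al (g n1)).1 / (al (h n1)).1 with hμ1
  set μ2 : ℚ := (al (g n2)).1 / (al (h n2)).1 with hμ2
  have hμ10 : 0 < μ1 := div_pos (hal0 _ (hgH n1)) (hal0 _ (hhH n1))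
  -- the slope of `T`
  have hdv : u (g n2) * v (h n2) * v (g n1) * u (h n1) ∣
      m₁ ^ (e (g n2) + e (h n2) + e (g n1) + e (h n1)) := by
    rw [pow_add, pow_add, pow_add]
    exact mul_dvd_mul (mul_dvd_mul (mul_dvd_mul (hu _ (hgH n2)) (hv _ (hhH n2))) (hv _ (hgH n1)))
      (hu _ (hhH n1))
  have hdv' : v (g n2) * u (h n2) * u (g n1) * v (h n1) ∣
      m₁ ^ (e (g n2) + e (h n2) + e (g n1) + e (h n1)) := by
    rw [pow_add, pow_add, pow_add]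
    exact mul_dvd_mul (mul_dvd_mul (mul_dvd_mul (hv _ (hgH n2)) (hu _ (hhH n2))) (hu _ (hgH n1)))
      (hv _ (hhH n1))
  have hν : μ2 / μ1 * ((v (g n2) * u (h n2) * u (g n1) * v (h n1) : ℕ) : ℚ) =
      ((u (g n2) * v (h n2) * v (g n1) * u (h n1) : ℕ) : ℚ) * ((m ^ (x' - x).toNat : ℕ) : ℚ) := by
    have a1 := huv _ (hgH n1)
    have a2 := huv _ (hgH n2)
    have b1 := huv _ (hhH n1)
    have b2 := huv _ (hhH n2)
    have p1 := (hal0 _ (hgH n1)).ne'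
    have p2 := (hal0 _ (hhH n1)).ne'
    have p3 := (hal0 _ (hhH n2)).ne'
    have q1 : f (g n2) ≠ 0 := (hF0 _ (hfF _ (hgH n2))).ne'
    have q2 : f (h n2) ≠ 0 := (hF0 _ (hfF _ (hhH n2))).ne'
    rw [hfg] at a1
    rw [hfh] at b1
    have e3 : (m : ℚ) ^ (κ (g n2)) * (m : ℚ) ^ (κ (h n1)) =
        (m : ℚ) ^ (x' - x).toNat * (m : ℚ) ^ (κ (g n1)) * (m : ℚ) ^ (κ (h n2)) := by
      rw [← zpow_natCast, ← zpow_add₀ hmq.ne', ← zpow_add₀ hmq.ne', ← zpow_add₀ hmq.ne']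
      congr 1
      omega
    have z1 : (m : ℚ) ^ (κ (g n1)) ≠ 0 := zpow_ne_zero _ hmq.ne'
    have z2 : (m : ℚ) ^ (κ (h n2)) ≠ 0 := zpow_ne_zero _ hmq.ne'
    rw [hμ1, hμ2, div_div_div_eq]
    rw [div_mul_eq_mul_div, div_eq_iff (mul_ne_zero p3 p1)]
    push_cast
    have key1 : (al (g n2)).1 * (al (h n1)).1 * (v (g n2) * u (h n2) * u (g n1) * v (h n1)) *
        (f (g n2) * f (h n2) * (m : ℚ) ^ (κ (g n1)) * (m : ℚ) ^ (κ (h n2))) =
        u (g n2) * v (h n2) * v (g n1) * u (h n1) * (m : ℚ) ^ (x' - x).toNat *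
          ((al (h n2)).1 * (al (g n1)).1) *
        (f (g n2) * f (h n2) * (m : ℚ) ^ (κ (g n1)) * (m : ℚ) ^ (κ (h n2))) := by
      calc (al (g n2)).1 * (al (h n1)).1 * (v (g n2) * u (h n2) * u (g n1) * v (h n1)) *
          (f (g n2) * f (h n2) * (m : ℚ) ^ (κ (g n1)) * (m : ℚ) ^ (κ (h n2)))
          = ((al (g n2)).1 * v (g n2)) * ((al (h n1)).1 * v (h n1)) *
            (f (g n2) * u (g n1) * (m : ℚ) ^ (κ (g n1))) *
            (f (h n2) * u (h n2) * (m : ℚ) ^ (κ (h n2))) := by ring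
        _ = (f (g n2) * u (g n2) * (m : ℚ) ^ (κ (g n2))) *
            (f (h n2) * u (h n1) * (m : ℚ) ^ (κ (h n1))) *
            ((al (g n1)).1 * v (g n1)) * ((al (h n2)).1 * v (h n2)) := by
            rw [a2, b1, ← a1, ← b2]
        _ = (f (g n2) * u (g n2) * f (h n2) * u (h n1)) *
            ((m : ℚ) ^ (κ (g n2)) * (m : ℚ) ^ (κ (h n1))) *
            ((al (g n1)).1 * v (g n1)) * ((al (h n2)).1 * v (h n2)) := by ring
        _ = _ := by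
            rw [e3]
            ring
    exact mul_right_cancel₀ (mul_ne_zero (mul_ne_zero (mul_ne_zero q1 q2) z1) z2) key1
  have ht1 : 1 ≤ (x' - x).toNat := by omega
  have hT := aff_compose hy haff1 haff2 heq.symm hν (mul_div_cancel₀ μ2 hμ10.ne') hdv'
  set T : Equiv.Perm ℤ := (g n1 * (h n1)⁻¹)⁻¹ * (g n2 * (h n2)⁻¹) with hTdef
  have hTH : T ∈ H := mul_mem (inv_mem (mul_mem (hgH _) (inv_mem (hhH _))))
    (mul_mem (hgH _) (inv_mem (hhH _)))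
  have hTb : T * b' = b := by
    rw [hTdef, mul_assoc, ← heq, inv_mul_cancel_left]
  have hall := expanding S.finite_toSet hexp hd hy hU hm₁ (by omega) hX0 hfin hTH hT ht1 hν
    hdv hdv' hb' (by rw [hTb]; exact hb)
  have hfin' := finKey_of_class hd (fun s hs => hS s hs) hy P hP hP2 hall
  refine locAb_mixed (m := m₁ * m) (Nat.mul_pos hm₁ hm) S hS hy F (fun g' hg' a ha => ?_) hfin'
  obtain ⟨f', hf', u', v', e', k', hu', hv', huv'⟩ := hF g' hg' a ha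
  have hpe : ∀ (w e1 e2 : ℕ), w ∣ m₁ ^ e1 → w * m ^ e2 ∣ (m₁ * m) ^ (e1 + e2) := by
    intro w e1 e2 hw
    rw [mul_pow]
    exact mul_dvd_mul (hw.trans (pow_dvd_pow m₁ (by omega))) (pow_dvd_pow m (by omega))
  have hpe0 : ∀ (w e1 e2 : ℕ), w ∣ m₁ ^ e1 → w ∣ (m₁ * m) ^ (e1 + e2) := by
    intro w e1 e2 hw
    exact (Dvd.intro _ rfl).trans (hpe w e1 e2 hw)
  rcases Int.eq_nat_or_neg k' with ⟨r, rfl | rfl⟩
  · refine ⟨f', hf', u' * m ^ r, v', e' + r, hpe _ _ _ hu', hpe0 _ _ _ hv', ?_⟩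
    rw [huv', zpow_natCast]
    push_cast
    ring
  · refine ⟨f', hf', u', v' * m ^ r, e' + r, hpe0 _ _ _ hu', hpe _ _ _ hv', ?_⟩
    have hmr : (m : ℚ) ^ r ≠ 0 := pow_ne_zero _ hmq.ne'
    have e9 : a.1 * ((v' * m ^ r : ℕ) : ℚ) = (a.1 * v') * (m : ℚ) ^ r := by
      push_cast
      ring
    rw [e9, huv', zpow_neg, zpow_natCast]
    field_simp

/-- one direction of slopes: a limit point with virtually abelian germs -/
theorem exists_locAb (S : Finset (Equiv.Perm ℤ)) (hS : ∀ s ∈ S, s ∈ CT)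
    (hexp : NoExp (S : Set (Equiv.Perm ℤ))) {x : ℕ → ℤ} (hx : Pro x) {m₁ m : ℕ} (hm₁ : 1 ≤ m₁)
    (hm : 1 ≤ m) {F : Finset ℚ}
    (hF : SlIn F m₁ m (Subgroup.closure (S : Set (Equiv.Perm ℤ))) x)
    (hfin : FinKey m₁ (Subgroup.closure (S : Set (Equiv.Perm ℤ))) x) :
    ∃ y : ℕ → ℤ, Pro y ∧ Clo (Subgroup.closure (S : Set (Equiv.Perm ℤ))) x y ∧
      LocAb (Subgroup.closure (S : Set (Equiv.Perm ℤ))) y := by
  obtain ⟨M, A, hd⟩ := Pool.Agent.Grm.exists_data S hS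
  obtain ⟨y, hy, hc, hU⟩ := exists_urec hd hx
  obtain ⟨F', hF'0, hF'⟩ := hF.clo hd hx hc hm₁ hm
  exact ⟨y, hy, hc, locAb_of_urec S hS hexp hy hU hm₁ hm hF'0 hF' (hfin.clo hd hx hy hc hm₁)⟩

end Pool.Agent.LgpE
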