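import Pool.Agent.Lgp.Fg

/-!
# Disjoint translates of a syndetic set
-/

namespace Pool.Agent.LgpE

open Pool.Agent.CTm Pool.Agent.Grm Pool.Agent.Lgp Filter

variable {G : Type*} [Group G]

private theorem dis_exp {S : Set G} (hS : S.Finite) {l0 : ℕ} (hl0 : 0 < l0)
    (h : ∀ k, 2 ^ k ≤ growth S (l0 * k)) :
    ∃ c : ℝ, 1 < c ∧ ∀ᶠ n : ℕ in atTop, c ^ n ≤ growth S n := by
  have hl0' : (0 : ℝ) < 2 * l0 := by positivity
  have hc1 : (1 : ℝ) < (2 : ℝ) ^ ((1 : ℝ) / (2 * l0)) :=
    Real.one_lt_rpow (by norm_num) (by positivity)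
  have hc2 : ((2 : ℝ) ^ ((1 : ℝ) / (2 * l0))) ^ (2 * l0) = 2 := by
    rw [← Real.rpow_natCast, ← Real.rpow_mul (by norm_num)]
    have : (1 : ℝ) / (2 * l0) * ((2 * l0 : ℕ) : ℝ) = 1 := by
      push_cast
      field_simp
    rw [this, Real.rpow_one]
  refine ⟨_, hc1, ?_⟩
  filter_upwards [eventually_ge_atTop l0] with n hn
  have h1 : 1 ≤ n / l0 := (Nat.one_le_div_iff hl0).2 hn
  have h2 : n ≤ 2 * l0 * (n / l0) := by
    have h3 := Nat.div_add_mod n l0
    have h4 := Nat.mod_lt n hl0
    nlinarith
  have h3 : l0 * (n / l0) ≤ n := Nat.mul_div_le n l0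
  calc ((2 : ℝ) ^ ((1 : ℝ) / (2 * l0))) ^ n ≤
      ((2 : ℝ) ^ ((1 : ℝ) / (2 * l0))) ^ (2 * l0 * (n / l0)) :=
        pow_le_pow_right₀ hc1.le h2
    _ = 2 ^ (n / l0) := by rw [pow_mul, hc2]
    _ ≤ growth S (l0 * (n / l0)) := by
        have := h (n / l0)
        exact_mod_cast this
    _ ≤ growth S n := by
        have := growth_mono hS h3
        exact_mod_cast this

theorem one_mem_ball (S : Set G) (n : ℕ) : (1 : G) ∈ ball S n := ⟨[], by simp, by simp, rfl⟩

theorem growth_pos {S : Set G} (hS : S.Finite) (n : ℕ) : 0 < growth S n :=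
  (Set.ncard_pos (ball_finite hS n)).2 ⟨1, one_mem_ball S n⟩

/-- no exponential growth: the balls do not always double -/
theorem doubling {S : Set G} (hS : S.Finite) (hexp : NoExp S) (l : ℕ) :
    ∃ n, growth S (n + l) ≤ 2 * growth S n := by
  by_contra hno
  push Not at hno
  rcases Nat.eq_zero_or_pos l with rfl | hl
  · have h1 := hno 0
    rw [add_zero] at h1
    omega
  · refine hexp (dis_exp hS hl fun k => ?_)
    induction k with
    | zero => exact growth_pos hS _
    | succ k ih =>
      have h1 := hno (l * k)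
      rw [Nat.mul_succ, pow_succ]
      omega

/-- the number of pairwise disjoint translates of a syndetic set is bounded -/
theorem disj_bound {S : Set G} (hS : S.Finite) (hexp : NoExp S) {B : Set G} (P : Finset G)
    (hP : ∀ p ∈ P, p ∈ Subgroup.closure S) (hB : ∀ g ∈ Subgroup.closure S, ∃ p ∈ P, p * g ∈ B)
    {ι : Type*} (E : Finset ι) (k : ι → G) (hk : ∀ e ∈ E, k e ∈ Subgroup.closure S)
    (hdisj : ∀ e ∈ E, ∀ e' ∈ E, e ≠ e' → ∀ b ∈ B, ∀ b' ∈ B, k e * b ≠ k e' * b') :
    E.card ≤ 2 * P.card := by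
  classical
  have hlev : ∀ g ∈ Subgroup.closure S, ∃ n, g ∈ ball S n := fun g hg => mem_ball_of_closure hg
  choose! lev hlev using hlev
  set L1 := P.sup lev with hL1
  set L2 := E.sup (fun e => lev (k e)) with hL2
  obtain ⟨n, hn⟩ := doubling hS hexp (L2 + L1)
  choose! p hpP hpB using hB
  have hballmem : ∀ {n : ℕ} {g : G}, g ∈ ball S n → g ∈ Subgroup.closure S := by
    rintro n g ⟨l, _, h2, rfl⟩
    refine Subgroup.list_prod_mem _ fun x hx => ?_
    rcases h2 x hx with h | h
    · exact Subgroup.subset_closure h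
    · exact (Subgroup.inv_mem_iff _).1 (Subgroup.subset_closure h)
  have hcard : (ball_finite hS n).toFinset.card * E.card ≤
      (ball_finite hS (n + (L2 + L1))).toFinset.card * P.card := by
    rw [← Finset.card_product, ← Finset.card_product]
    refine Finset.card_le_card_of_injOn (fun x => (k x.2 * (p x.1 * x.1), p x.1)) ?_ ?_
    · rintro ⟨g, e⟩ hx
      rw [Finset.mem_coe, Finset.mem_product] at hx
      simp only [Set.Finite.mem_toFinset] at hx
      rw [Finset.mem_coe, Finset.mem_product]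
      have hg := hballmem hx.1
      have hpg := hpP g hg
      refine ⟨?_, hpg⟩
      simp only [Set.Finite.mem_toFinset]
      have h1 : p g ∈ ball S L1 := ball_mono (Finset.le_sup (f := lev) hpg) (hlev _ (hP _ hpg))
      have h2 : k e ∈ ball S L2 :=
        ball_mono (Finset.le_sup (f := fun e => lev (k e)) hx.2) (hlev _ (hk e hx.2))
      have h3 := ball_mul h2 (ball_mul h1 hx.1)
      have h4 : L2 + (L1 + n) = n + (L2 + L1) := by omega
      rwa [h4] at h3
    · rintro ⟨g, e⟩ hx ⟨g', e'⟩ hx' heq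
      rw [Finset.mem_coe, Finset.mem_product] at hx hx'
      simp only [Set.Finite.mem_toFinset] at hx hx'
      simp only [Prod.mk.injEq] at heq
      have hg := hballmem hx.1
      have hg' := hballmem hx'.1
      have hee : e = e' := by
        by_contra hne
        exact hdisj e hx.2 e' hx'.2 hne _ (hpB g hg) _ (hpB g' hg') heq.1
      subst hee
      have h1 := mul_left_cancel heq.1
      rw [heq.2] at h1
      have h2 := mul_left_cancel h1
      rw [h2]
  have e1 : (ball_finite hS n).toFinset.card = growth S n :=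
    (Set.ncard_eq_toFinset_card _ (ball_finite hS n)).symm
  have e2 : (ball_finite hS (n + (L2 + L1))).toFinset.card = growth S (n + (L2 + L1)) :=
    (Set.ncard_eq_toFinset_card _ (ball_finite hS _)).symm
  rw [e1, e2] at hcard
  have h3 := growth_pos hS n
  have h4 : growth S n * E.card ≤ growth S n * (2 * P.card) := by
    calc growth S n * E.card ≤ growth S (n + (L2 + L1)) * P.card := hcard
      _ ≤ (2 * growth S n) * P.card := Nat.mul_le_mul_right _ hn
      _ = growth S n * (2 * P.card) := by ring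
  exact Nat.le_of_mul_le_mul_left h4 h3

end Pool.Agent.LgpE
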