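import Pool.Agent.Lgp.Cont
import Mathlib.Topology.Compactification.StoneCech

/-!
# Uniformly recurrent profinite points
-/

namespace Pool.Agent.LgpE

open Pool.Agent.CTm Pool.Agent.Grm Pool.Agent.Lgp Filter Nat Topology

/-- the residue class `r + j! ℤ` -/
def cls (r : ℤ) (j : ℕ) : Set ℤ := {n | ((j ! : ℕ) : ℤ) ∣ n - r}

/-- `g y` is in the class `r + j! ℤ` -/
def Hit (y : ℕ → ℤ) (g : Equiv.Perm ℤ) (r : ℤ) (j : ℕ) : Prop :=
  ∃ i : ℕ, ∀ n : ℤ, ((i ! : ℕ) : ℤ) ∣ n - y i → ((j ! : ℕ) : ℤ) ∣ g n - r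

/-- `y` is uniformly recurrent -/
def URec (H : Subgroup (Equiv.Perm ℤ)) (y : ℕ → ℤ) : Prop :=
  ∀ (r : ℤ) (j : ℕ), (∃ g ∈ H, Hit y g r j) →
    ∃ Φ : Finset (Equiv.Perm ℤ), (∀ q ∈ Φ, q ∈ H) ∧ ∀ g ∈ H, ∃ q ∈ Φ, Hit y (q * g) r j

variable {S : Set (Equiv.Perm ℤ)} {M : ℕ} {A : Finset (ℚ × ℚ)}

theorem continuous_map (g : ℤ → ℤ) : Continuous (fun u : Ultrafilter ℤ => u.map g) := by
  refine continuous_generateFrom_iff.2 ?_
  rintro _ ⟨s, rfl⟩
  exact ultrafilter_isOpen_basic (g ⁻¹' s)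

/-- an ultrafilter is above the profinite integer `y` -/
def Above (y : ℕ → ℤ) (u : Ultrafilter ℤ) : Prop := ∀ j, cls (y j) j ∈ u

theorem exists_above {y : ℕ → ℤ} (hy : Pro y) : ∃ u : Ultrafilter ℤ, Above y u := by
  refine ⟨(hyperfilter ℕ).map y, fun j => ?_⟩
  show {n : ℕ | y n ∈ cls (y j) j} ∈ hyperfilter ℕ
  refine Filter.mem_hyperfilter_of_finite_compl ?_
  refine (Set.finite_lt_nat j).subset ?_
  intro n hn
  by_contra h
  refine hn ?_
  exact Pro.coh hy (not_lt.1 h)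

theorem above_exists (u : Ultrafilter ℤ) : ∃ y : ℕ → ℤ, Pro y ∧ Above y u := by
  have h1 : ∀ j : ℕ, ∃ r : ℤ, cls r j ∈ u := by
    intro j
    have h2 : (⋃ r ∈ Set.Ico (0 : ℤ) ((j ! : ℕ) : ℤ), cls r j) ∈ u := by
      have h3 : (⋃ r ∈ Set.Ico (0 : ℤ) ((j ! : ℕ) : ℤ), cls r j) = Set.univ := by
        ext n
        simp only [Set.mem_iUnion, Set.mem_univ, iff_true]
        have hpos : (0 : ℤ) < ((j ! : ℕ) : ℤ) := by exact_mod_cast Nat.factorial_pos j
        refine ⟨n % ((j ! : ℕ) : ℤ), ⟨Int.emod_nonneg _ hpos.ne', Int.emod_lt_of_pos _ hpos⟩, ?_⟩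
        exact Int.dvd_self_sub_emod
      rw [h3]
      exact Filter.univ_mem
    obtain ⟨r, _, hr⟩ := (Ultrafilter.finite_biUnion_mem_iff (Set.finite_Ico _ _)).1 h2
    exact ⟨r, hr⟩
  choose y hy using h1
  refine ⟨y, fun j => ?_, hy⟩
  obtain ⟨n, hn1, hn2⟩ := u.neBot.nonempty_of_mem (Filter.inter_mem (hy j) (hy (j + 1)))
  have e1 : ((j ! : ℕ) : ℤ) ∣ n - y (j + 1) :=
    (Int.natCast_dvd_natCast.2 (Nat.factorial_dvd_factorial (Nat.le_succ j))).trans hn2
  have e2 : y (j + 1) - y j = (n - y j) - (n - y (j + 1)) := by ring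
  rw [e2]
  exact dvd_sub hn1 e1

theorem hit_iff (hd : Data S M A) {y : ℕ → ℤ} (hy : Pro y) {u : Ultrafilter ℤ} (hu : Above y u)
    {g : Equiv.Perm ℤ} (hg : g ∈ Subgroup.closure S) (r : ℤ) (j : ℕ) :
    Hit y g r j ↔ cls r j ∈ u.map g := by
  constructor
  · rintro ⟨i, hi⟩
    rw [Ultrafilter.mem_map]
    exact Filter.mem_of_superset (Ultrafilter.mem_coe.2 (hu i)) hi
  · intro h
    obtain ⟨a, _, ha⟩ := exists_germ hd hy hg
    obtain ⟨i, hi⟩ := germ_cont hy ha (j !) (Nat.factorial_pos j)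
    obtain ⟨n, hn1, hn2⟩ := u.neBot.nonempty_of_mem (Filter.inter_mem (hu i) (Ultrafilter.mem_map.1 h))
    refine ⟨i, fun n' hn' => ?_⟩
    have e1 := hi i le_rfl n hn1
    have e2 := hi i le_rfl n' hn'
    have e3 : ((j ! : ℕ) : ℤ) ∣ g n - r := hn2
    have e4 : g n' - r = (g n' - g (y i)) - (g n - g (y i)) + (g n - r) := by ring
    rw [e4]
    exact dvd_add (dvd_sub e2 e1) e3

theorem exists_urec (hd : Data S M A) {x : ℕ → ℤ} (hx : Pro x) :
    ∃ y : ℕ → ℤ, Pro y ∧ Clo (Subgroup.closure S) x y ∧ URec (Subgroup.closure S) y := by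
  set H := Subgroup.closure S with hH
  obtain ⟨u, hu⟩ := exists_above hx
  set 𝒮 : Set (Set (Ultrafilter ℤ)) :=
    {C | IsClosed C ∧ C.Nonempty ∧ ∀ g ∈ H, ∀ v ∈ C, v.map g ∈ C} with h𝒮
  set X : Set (Ultrafilter ℤ) := closure {v | ∃ g ∈ H, v = u.map g} with hX
  have hXS : X ∈ 𝒮 := by
    refine ⟨isClosed_closure, ⟨u, subset_closure ⟨1, one_mem _, ?_⟩⟩, ?_⟩
    · exact (Ultrafilter.map_id u).symm
    · intro g hg v hv
      have h1 := image_closure_subset_closure_image (continuous_map g) ⟨v, hv, rfl⟩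
      refine closure_mono ?_ h1
      rintro _ ⟨_, ⟨k, hk, rfl⟩, rfl⟩
      exact ⟨g * k, mul_mem hg hk, (Ultrafilter.map_map _ _ _)⟩
  obtain ⟨C, hCX, hC, hmin⟩ := zorn_superset_nonempty 𝒮 (by
    intro c hc hchain hne
    refine ⟨⋂₀ c, ⟨isClosed_sInter fun s hs => (hc hs).1, ?_, ?_⟩, fun s hs => Set.sInter_subset_of_mem hs⟩
    · have : Nonempty c := hne.to_subtype
      refine IsCompact.nonempty_sInter_of_directed_nonempty_isCompact_isClosed (S := c) ?_ ?_ ?_ ?_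
      · intro s hs t ht
        rcases hchain.total hs ht with h | h
        · exact ⟨s, hs, le_refl _, h⟩
        · exact ⟨t, ht, h, le_refl _⟩
      · exact fun s hs => (hc hs).2.1
      · exact fun s hs => (hc hs).1.isCompact
      · exact fun s hs => (hc hs).1
    · intro g hg v hv s hs
      exact (hc hs).2.2 g hg v (hv s hs)) X hXS
  obtain ⟨hCcl, ⟨v, hv⟩, hinv⟩ := hC
  obtain ⟨y, hy, hyv⟩ := above_exists v
  refine ⟨y, hy, ?_, ?_⟩
  · intro j
    have h1 : v ∈ X := hCX hv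
    rw [hX, mem_closure_iff] at h1
    obtain ⟨w, hw, g, hg, rfl⟩ := h1 {w | cls (y j) j ∈ w} (ultrafilter_isOpen_basic _) (hyv j)
    obtain ⟨i, hi⟩ := (hit_iff hd hx hu hg (y j) j).2 hw
    exact ⟨g, hg, i, hi⟩
  · intro r j hex
    obtain ⟨g, hg, hgr⟩ := hex
    rw [hit_iff hd hy hyv hg] at hgr
    -- the points whose orbits miss the class
    set D : Set (Ultrafilter ℤ) := C ∩ {w | ∀ h ∈ H, cls r j ∉ w.map h} with hD
    have hDcl : IsClosed D := by
      refine hCcl.inter ?_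
      have e1 : {w : Ultrafilter ℤ | ∀ h ∈ H, cls r j ∉ w.map h} =
          ⋂ h ∈ H, (fun w : Ultrafilter ℤ => w.map h) ⁻¹' {w | cls r j ∈ w}ᶜ := by
        ext w
        simp only [Set.mem_ofPred_eq, Set.mem_iInter, Set.mem_preimage, Set.mem_compl_iff]
      rw [e1]
      refine isClosed_biInter fun h _ => ?_
      exact (isOpen_compl_iff.1 (by rw [compl_compl]; exact ultrafilter_isOpen_basic _)).preimage
        (continuous_map h)
    have hDinv : ∀ g ∈ H, ∀ w ∈ D, w.map g ∈ D := by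
      rintro g hg w ⟨hw1, hw2⟩
      refine ⟨hinv g hg w hw1, fun h hh => ?_⟩
      have e1 := hw2 (h * g) (mul_mem hh hg)
      have e2 : (w.map g).map h = w.map (h * g : Equiv.Perm ℤ) := Ultrafilter.map_map _ _ _
      rw [e2]
      exact e1
    have hDempty : D = ∅ := by
      by_contra hne
      have hDS : D ∈ 𝒮 := ⟨hDcl, Set.nonempty_iff_ne_empty.2 hne, hDinv⟩
      have h1 := hmin hDS Set.inter_subset_left
      exact (h1 hv).2 g hg hgr
    -- compactness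
    have hcover : C ⊆ ⋃ h : H, (fun w : Ultrafilter ℤ => w.map (h : Equiv.Perm ℤ)) ⁻¹' {w | cls r j ∈ w} := by
      intro w hw
      by_contra hnot
      have h1 : w ∈ D := by
        refine ⟨hw, fun h hh hc => hnot ?_⟩
        exact Set.mem_iUnion.2 ⟨⟨h, hh⟩, hc⟩
      rw [hDempty] at h1
      exact h1
    obtain ⟨t, ht⟩ := hCcl.isCompact.elim_finite_subcover _
      (fun h => (ultrafilter_isOpen_basic _).preimage (continuous_map _)) hcover
    classical
    refine ⟨t.image Subtype.val, ?_, ?_⟩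
    · intro q hq
      obtain ⟨h, _, rfl⟩ := Finset.mem_image.1 hq
      exact h.2
    · intro g' hg'
      have h1 := ht (hinv g' hg' v hv)
      simp only [Set.mem_iUnion] at h1
      obtain ⟨h, hht, hh⟩ := h1
      refine ⟨h, Finset.mem_image.2 ⟨h, hht, rfl⟩, ?_⟩
      rw [hit_iff hd hy hyv (mul_mem h.2 hg')]
      have e2 : (v.map g').map (h : Equiv.Perm ℤ) = v.map ((h : Equiv.Perm ℤ) * g' : Equiv.Perm ℤ) :=
        Ultrafilter.map_map _ _ _
      rw [← e2]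
      exact hh

end Pool.Agent.LgpE
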