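import Pool.Agent.LgpE.Mixed
import Pool.Agent.LgpE.Min
import Pool.Agent.LgpE.Dis

/-!
# Affine pieces along balls
-/

namespace Pool.Agent.LgpE

open Pool.Agent.CTm Pool.Agent.Grm Pool.Agent.Lgp Filter Nat

variable {S : Set (Equiv.Perm ℤ)} {M : ℕ} {A : Finset (ℚ × ℚ)} {y : ℕ → ℤ}

/-- the slopes at `y` of the elements of `H` are of the form `f (u / v) m ^ k`, `f ∈ F`, where `u` and `v` divide
powers of `m₁` -/
def SlIn (F : Finset ℚ) (m₁ m : ℕ) (H : Subgroup (Equiv.Perm ℤ)) (y : ℕ → ℤ) : Prop :=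
  ∀ g ∈ H, ∀ a : ℚ × ℚ, Germ y g a → ∃ f ∈ F, ∃ u v e : ℕ, ∃ k : ℤ,
    u ∣ m₁ ^ e ∧ v ∣ m₁ ^ e ∧ a.1 * v = f * u * (m : ℚ) ^ k

theorem ball_mem {S : Set (Equiv.Perm ℤ)} {n : ℕ} {g : Equiv.Perm ℤ} (hg : g ∈ ball S n) :
    g ∈ Subgroup.closure S := by
  obtain ⟨l, _, h2, rfl⟩ := hg
  exact list_mem h2

/-- if `L` times the slopes of the elements of the ball are multiples of `M` the elements of the ball are affine
on the class of `y` modulo `L` -/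
theorem aff_ball (hd : Data S M A) (hy : Pro y) {R : ℕ} {L : ℤ}
    (hL : ∀ v ∈ ball S R, ∀ b : ℚ × ℚ, Germ y v b → ∃ t : ℤ, b.1 * L = M * t)
    {v : Equiv.Perm ℤ} (hv : v ∈ ball S R) {b : ℚ × ℚ} (hb : Germ y v b) :
    ∃ i : ℕ, ∀ n : ℤ, ((i ! : ℕ) : ℤ) ∣ n - y i → ∀ w : ℤ,
      ((v (n + L * w) : ℤ) : ℚ) = (v n : ℤ) + b.1 * L * w := by
  have key : ∀ l : List (Equiv.Perm ℤ), l.length ≤ R → (∀ x ∈ l, x ∈ S ∨ x⁻¹ ∈ S) →
      ∃ b : ℚ × ℚ, Germ y l.prod b ∧ ∃ i : ℕ, ∀ n : ℤ, ((i ! : ℕ) : ℤ) ∣ n - y i → ∀ w : ℤ,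
        ((l.prod (n + L * w) : ℤ) : ℚ) = (l.prod n : ℤ) + b.1 * L * w := by
    intro l
    induction l with
    | nil =>
      intro _ _
      refine ⟨(1, 0), Germ.one, 0, fun n _ w => ?_⟩
      simp
    | cons s l ih =>
      intro hlen hl
      have hl' : ∀ x ∈ l, x ∈ S ∨ x⁻¹ ∈ S := fun x hx => hl x (by simp [hx])
      have hs := hl s (by simp)
      have hlen' : l.length ≤ R := by
        rw [List.length_cons] at hlen
        omega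
      obtain ⟨b, hb, i, hi⟩ := ih hlen' hl'
      obtain ⟨t, ht⟩ := hL l.prod ⟨l, hlen', hl', rfl⟩ b hb
      obtain ⟨i1, h1⟩ := germ_cont hy hb M hd.pos
      obtain ⟨i2, h2⟩ := hb.deep hy
      set I := max i (max i1 i2) with hI
      have hI1 : i ≤ I := le_max_left _ _
      have hI2 : i1 ≤ I := (le_max_left _ _).trans (le_max_right _ _)
      have hI3 : i2 ≤ I := (le_max_right _ _).trans (le_max_right _ _)
      obtain ⟨c, _, hcc⟩ := hd.aff s hs (l.prod (y I))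
      refine ⟨(c.1 * b.1, c.1 * b.2 + c.2), ⟨I, fun n hn => ?_⟩, I, fun n hn w => ?_⟩
      · have e1 := hcc (l.prod n) (h1 I hI2 n hn)
        have e2 := h2 I hI3 n hn
        rw [List.prod_cons, Equiv.Perm.mul_apply, e1, e2]
        ring
      · have e0 := hi n (pro_deep hy hI1 hn) w
        have e1 := hcc (l.prod n) (h1 I hI2 n hn)
        have e3 : (M : ℤ) ∣ l.prod (n + L * w) - l.prod n := by
          refine ⟨t * w, ?_⟩
          have e4 : ((l.prod (n + L * w) - l.prod n : ℤ) : ℚ) = (((M : ℤ) * (t * w) : ℤ) : ℚ) := by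
            push_cast
            rw [e0, ht]
            ring
          exact_mod_cast e4
        have e5 := hcc (l.prod (n + L * w)) (by
          have e6 : l.prod (n + L * w) - l.prod (y I) =
              (l.prod (n + L * w) - l.prod n) + (l.prod n - l.prod (y I)) := by ring
          rw [e6]
          exact dvd_add e3 (h1 I hI2 n hn))
        rw [List.prod_cons, Equiv.Perm.mul_apply, Equiv.Perm.mul_apply, e5, e1, e0]
        ring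
  obtain ⟨l, hlen, hl, rfl⟩ := hv
  obtain ⟨b', hb', h⟩ := key l hlen hl
  rw [Germ.unique hy hb hb']
  exact h

/-- `k` is affine with slope `μ` on the class of `g y` modulo `X m₁ ^ J`, for some `J` -/
def AffAt (m₁ X : ℕ) (y : ℕ → ℤ) (g k : Equiv.Perm ℤ) (μ : ℚ) : Prop :=
  ∃ J i : ℕ, ∀ n : ℤ, ((i ! : ℕ) : ℤ) ∣ n - y i → ∀ w : ℤ,
    ((k (g n + ((X * m₁ ^ J : ℕ) : ℤ) * w) : ℤ) : ℚ) = (k (g n) : ℤ) + μ * ((X * m₁ ^ J : ℕ) : ℤ) * w

theorem AffAt.up {m₁ X : ℕ} {g k : Equiv.Perm ℤ} {μ : ℚ} (h : AffAt m₁ X y g k μ) :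
    ∃ J0 i : ℕ, ∀ J : ℕ, J0 ≤ J → ∀ n : ℤ, ((i ! : ℕ) : ℤ) ∣ n - y i → ∀ w : ℤ,
      ((k (g n + ((X * m₁ ^ J : ℕ) : ℤ) * w) : ℤ) : ℚ) =
        (k (g n) : ℤ) + μ * ((X * m₁ ^ J : ℕ) : ℤ) * w := by
  obtain ⟨J0, i, h⟩ := h
  refine ⟨J0, i, fun J hJ n hn w => ?_⟩
  have h1 := h n hn (((m₁ ^ (J - J0) : ℕ) : ℤ) * w)
  have h2 : ((X * m₁ ^ J : ℕ) : ℤ) = ((X * m₁ ^ J0 : ℕ) : ℤ) * ((m₁ ^ (J - J0) : ℕ) : ℤ) := by
    rw [← Nat.cast_mul, mul_assoc, ← pow_add, Nat.add_sub_cancel' hJ]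
  have h3 : g n + ((X * m₁ ^ J : ℕ) : ℤ) * w =
      g n + ((X * m₁ ^ J0 : ℕ) : ℤ) * (((m₁ ^ (J - J0) : ℕ) : ℤ) * w) := by
    rw [h2]
    ring
  rw [h3, h1, h2]
  push_cast
  ring

/-- an affine piece at `g y` is one at `g' y` -/
theorem AffAt.move (hy : Pro y) {m₁ X : ℕ} {g g' k : Equiv.Perm ℤ} {μ : ℚ} (h : AffAt m₁ X y g k μ)
    (hR : RX X m₁ y g' g) : AffAt m₁ X y g' k μ := by
  obtain ⟨J, i, h⟩ := h
  obtain ⟨i', hi'⟩ := hR J
  refine ⟨J, max i i', fun n hn w => ?_⟩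
  obtain ⟨w1, hw1⟩ := hi' n (pro_deep hy (le_max_right _ _) hn)
  have hg' : g' n = g n + ((X * m₁ ^ J : ℕ) : ℤ) * w1 := by linarith
  have e1 := h n (pro_deep hy (le_max_left _ _) hn) w1
  have e2 := h n (pro_deep hy (le_max_left _ _) hn) (w1 + w)
  have e3 : g' n + ((X * m₁ ^ J : ℕ) : ℤ) * w = g n + ((X * m₁ ^ J : ℕ) : ℤ) * (w1 + w) := by
    rw [hg']
    ring
  rw [e3, e2, hg', e1]
  push_cast
  ring

/-- the images of two equivalent points -/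
theorem AffAt.diff (hy : Pro y) {m₁ X : ℕ} {g g' k : Equiv.Perm ℤ} {μ : ℚ} (h : AffAt m₁ X y g k μ)
    (hR : RX X m₁ y g' g) : ∃ i : ℕ, ∀ n : ℤ, ((i ! : ℕ) : ℤ) ∣ n - y i →
      ((k (g' n) : ℤ) : ℚ) - (k (g n) : ℤ) = μ * ((g' n : ℤ) - (g n : ℤ)) := by
  obtain ⟨J, i, h⟩ := h
  obtain ⟨i', hi'⟩ := hR J
  refine ⟨max i i', fun n hn => ?_⟩
  obtain ⟨w1, hw1⟩ := hi' n (pro_deep hy (le_max_right _ _) hn)
  have hg' : g' n = g n + ((X * m₁ ^ J : ℕ) : ℤ) * w1 := by linarith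
  have e1 := h n (pro_deep hy (le_max_left _ _) hn) w1
  rw [hg', e1]
  push_cast
  ring

/-- the element `g h⁻¹` is affine on the class of `h y` -/
theorem aff_pair (hd : Data S M A) (hy : Pro y) {m₁ X R J : ℕ} {h g : Equiv.Perm ℤ}
    (hh : h ∈ ball S R) (hg : g ∈ ball S R) {a b : ℚ × ℚ} (ha : Germ y h a) (ha0 : 0 < a.1)
    (hb : Germ y g b)
    (hX : ∀ v ∈ ball S R, ∀ c : ℚ × ℚ, Germ y v c →
      ∃ t : ℤ, c.1 * ((X * m₁ ^ J : ℕ) : ℚ) = M * t * a.1) :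
    AffAt m₁ X y h (g * h⁻¹) (b.1 / a.1) := by
  obtain ⟨t0, ht0⟩ := hX 1 (one_mem_ball S R) (1, 0) Germ.one
  set L : ℤ := M * t0 with hL
  have hLa : (L : ℚ) * a.1 = ((X * m₁ ^ J : ℕ) : ℚ) := by
    rw [hL]
    push_cast
    rw [one_mul] at ht0
    push_cast at ht0
    exact ht0.symm
  have hLball : ∀ v ∈ ball S R, ∀ c : ℚ × ℚ, Germ y v c → ∃ t : ℤ, c.1 * L = M * t := by
    intro v hv c hc
    obtain ⟨t, ht⟩ := hX v hv c hc
    refine ⟨t, ?_⟩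
    rw [← hLa] at ht
    have e1 : (c.1 * L - M * t) * a.1 = 0 := by linear_combination ht
    rcases mul_eq_zero.1 e1 with h | h
    · linarith
    · exact absurd h ha0.ne'
  obtain ⟨i1, h1⟩ := aff_ball hd hy hLball hh ha
  obtain ⟨i2, h2⟩ := aff_ball hd hy hLball hg hb
  refine ⟨J, max i1 i2, fun n hn w => ?_⟩
  have e1 := h1 n (pro_deep hy (le_max_left _ _) hn) w
  have e2 := h2 n (pro_deep hy (le_max_right _ _) hn) w
  have e3 : h (n + L * w) = h n + ((X * m₁ ^ J : ℕ) : ℤ) * w := by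
    have e4 : ((h (n + L * w) : ℤ) : ℚ) = ((h n + ((X * m₁ ^ J : ℕ) : ℤ) * w : ℤ) : ℚ) := by
      rw [e1]
      push_cast
      push_cast at hLa
      linear_combination (w : ℚ) * hLa
    exact_mod_cast e4
  have e5 : (g * h⁻¹) (h n + ((X * m₁ ^ J : ℕ) : ℤ) * w) = g (n + L * w) := by
    rw [← e3, Equiv.Perm.mul_apply]
    exact congrArg g (h.symm_apply_apply _)
  have e6 : (g * h⁻¹) (h n) = g n := by
    rw [Equiv.Perm.mul_apply]
    exact congrArg g (h.symm_apply_apply _)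
  rw [e5, e6, e2]
  have e7 : b.1 * L = b.1 / a.1 * ((X * m₁ ^ J : ℕ) : ℚ) := by
    rw [← hLa]
    field_simp
  have e8 : ((((X * m₁ ^ J : ℕ) : ℤ)) : ℚ) = ((X * m₁ ^ J : ℕ) : ℚ) := by push_cast; ring
  rw [e7, e8]

end Pool.Agent.LgpE
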