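import Pool.Agent.LgpE.Syn

/-!
# Expanding returns
-/

namespace Pool.Agent.LgpE

open Pool.Agent.CTm Pool.Agent.Grm Pool.Agent.Lgp Filter Nat

variable {S : Set (Equiv.Perm ℤ)} {M : ℕ} {A : Finset (ℚ × ℚ)} {y : ℕ → ℤ}

/-- two affine maps with a common value -/
theorem aff_compose (hy : Pro y) {m₁ X : ℕ} {g g' k k' : Equiv.Perm ℤ} {μ μ' ν : ℚ}
    (h : AffAt m₁ X y g k μ) (h' : AffAt m₁ X y g' k' μ') (heq : k' * g' = k * g)
    {a b c e : ℕ} (hν : ν * b = a * c) (hμ : μ * ν = μ') (hb : b ∣ m₁ ^ e) :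
    AffAt m₁ X y g' (k⁻¹ * k') ν := by
  obtain ⟨J1, i1, h1⟩ := h'.up
  obtain ⟨J2, i2, h2⟩ := h
  set J := max J1 (J2 + e) with hJ
  have hJe : b ∣ m₁ ^ (J - J2) := hb.trans (pow_dvd_pow m₁ (by omega))
  obtain ⟨q, hq⟩ := hJe
  have hJJ : m₁ ^ J = m₁ ^ J2 * (b * q) := by
    rw [← hq, ← pow_add]
    congr 1
    omega
  refine ⟨J, max i1 i2, fun n hn w => ?_⟩
  have e1 := h1 J (le_max_left _ _) n (pro_deep hy (le_max_left _ _) hn) w
  have e2 := h2 n (pro_deep hy (le_max_right _ _) hn) ((a * c * q : ℕ) * w)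
  have e3 : k' (g' n) = k (g n) := by
    have := congrArg (fun f : Equiv.Perm ℤ => f n) heq
    simpa [Equiv.Perm.mul_apply] using this
  have e4 : k' (g' n + ((X * m₁ ^ J : ℕ) : ℤ) * w) =
      k (g n + ((X * m₁ ^ J2 : ℕ) : ℤ) * ((a * c * q : ℕ) * w)) := by
    have e5 : ((k' (g' n + ((X * m₁ ^ J : ℕ) : ℤ) * w) : ℤ) : ℚ) =
        ((k (g n + ((X * m₁ ^ J2 : ℕ) : ℤ) * ((a * c * q : ℕ) * w)) : ℤ) : ℚ) := by
      rw [e1, e2, e3, hJJ, ← hμ]
      push_cast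
      linear_combination (μ * X * (m₁ : ℚ) ^ J2 * q * w) * hν
    exact_mod_cast e5
  have e6 : (k⁻¹ * k') (g' n + ((X * m₁ ^ J : ℕ) : ℤ) * w) =
      g n + ((X * m₁ ^ J2 : ℕ) : ℤ) * ((a * c * q : ℕ) * w) := by
    rw [Equiv.Perm.mul_apply, e4]
    exact k.symm_apply_apply _
  have e7 : (k⁻¹ * k') (g' n) = g n := by
    rw [Equiv.Perm.mul_apply, e3]
    exact k.symm_apply_apply _
  rw [e6, e7, hJJ]
  push_cast
  linear_combination -((X : ℚ) * (m₁ : ℚ) ^ J2 * q * w) * hν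

/-- the images of two equivalent points under `T` -/
theorem aff_rx (hy : Pro y) {m₁ X : ℕ} (hm₁ : 0 < m₁) {g₀ T : Equiv.Perm ℤ} {ν : ℚ}
    (hT : AffAt m₁ X y g₀ T ν) {a b c e : ℕ} (hν : ν * b = a * c) (hb : b ∣ m₁ ^ e)
    {g1 g2 : Equiv.Perm ℤ} (h1 : RX X m₁ y g1 g₀) (h2 : RX X m₁ y g2 g₀) {X' : ℕ}
    (h12 : RX X' m₁ y g1 g2) : RX (X' * c) m₁ y (T * g1) (T * g2) := by
  intro J
  obtain ⟨i1, hi1⟩ := hT.diff hy h1
  obtain ⟨i2, hi2⟩ := hT.diff hy h2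
  obtain ⟨i3, hi3⟩ := h12 (J + e)
  obtain ⟨q, hq⟩ := hb
  refine ⟨max (max i1 i2) i3, fun n hn => ?_⟩
  have e1 := hi1 n (pro_deep hy ((le_max_left _ _).trans (le_max_left _ _)) hn)
  have e2 := hi2 n (pro_deep hy ((le_max_right _ _).trans (le_max_left _ _)) hn)
  obtain ⟨w, hw⟩ := hi3 n (pro_deep hy (le_max_right _ _) hn)
  rw [Equiv.Perm.mul_apply, Equiv.Perm.mul_apply]
  have hqq : ((m₁ : ℚ) ^ e) = b * q := by exact_mod_cast hq
  have e3 : ((m₁ ^ e : ℕ) : ℤ) * (T (g1 n) - T (g2 n)) =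
      ((m₁ ^ e : ℕ) : ℤ) * (((X' * c * m₁ ^ J : ℕ) : ℤ) * (q * a * w)) := by
    have e4 : ((((m₁ ^ e : ℕ) : ℤ) * (T (g1 n) - T (g2 n)) : ℤ) : ℚ) =
        ((((m₁ ^ e : ℕ) : ℤ) * (((X' * c * m₁ ^ J : ℕ) : ℤ) * (q * a * w)) : ℤ) : ℚ) := by
      have e5 : ((T (g1 n) : ℤ) : ℚ) - ((T (g2 n) : ℤ) : ℚ) = ν * ((g1 n : ℤ) - (g2 n : ℤ)) := by
        linear_combination e1 - e2
      have e6 : ((g1 n : ℤ) : ℚ) - ((g2 n : ℤ) : ℚ) = X' * (m₁ : ℚ) ^ (J + e) * w := by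
        exact_mod_cast hw
      push_cast
      rw [e5, e6, pow_add, hqq]
      linear_combination (b * q * q * X' * (m₁ : ℚ) ^ J * w) * hν
    exact_mod_cast e4
  have hne : ((m₁ ^ e : ℕ) : ℤ) ≠ 0 := by
    have : 0 < m₁ ^ e := Nat.pow_pos hm₁
    exact_mod_cast this.ne'
  exact ⟨_, mul_left_cancel₀ hne e3⟩

/-- the preimages -/
theorem aff_rx_inv (hy : Pro y) {m₁ X : ℕ} {g₀ T : Equiv.Perm ℤ} {ν : ℚ}
    (hT : AffAt m₁ X y g₀ T ν) {a b c e : ℕ} (hν : ν * b = a * c) (ha : a ∣ m₁ ^ e)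
    {g g' : Equiv.Perm ℤ} (h' : RX X m₁ y g' g₀) (h : RX (X * c) m₁ y g (T * g')) :
    RX X m₁ y (T⁻¹ * g) g' := by
  intro J
  obtain ⟨J0, i0, h0⟩ := (hT.move hy h').up
  obtain ⟨i1, h1⟩ := h (max J J0 + e)
  obtain ⟨q, hq⟩ := ha
  refine ⟨max i0 i1, fun n hn => ?_⟩
  obtain ⟨w, hw⟩ := h1 n (pro_deep hy (le_max_right _ _) hn)
  have e1 := h0 (max J J0) (le_max_right _ _) n (pro_deep hy (le_max_left _ _) hn) ((b * q : ℕ) * w)
  have hqq : ((m₁ : ℚ) ^ e) = a * q := by exact_mod_cast hq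
  have e2 : T (g' n + ((X * m₁ ^ (max J J0) : ℕ) : ℤ) * ((b * q : ℕ) * w)) = g n := by
    have e3 : ((T (g' n + ((X * m₁ ^ (max J J0) : ℕ) : ℤ) * ((b * q : ℕ) * w)) : ℤ) : ℚ) =
        ((g n : ℤ) : ℚ) := by
      have e4 : ((g n : ℤ) : ℚ) = ((T (g' n) : ℤ) : ℚ) + X * c * (m₁ : ℚ) ^ (max J J0 + e) * w := by
        have e5 : g n = T (g' n) + ((X * c * m₁ ^ (max J J0 + e) : ℕ) : ℤ) * w := by
          rw [Equiv.Perm.mul_apply] at hw
          linarith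
        rw [e5]
        push_cast
        ring
      rw [e1, e4, pow_add, hqq]
      push_cast
      linear_combination (X * (m₁ : ℚ) ^ (max J J0) * q * w) * hν
    exact_mod_cast e3
  have e5 : (T⁻¹ * g) n = g' n + ((X * m₁ ^ (max J J0) : ℕ) : ℤ) * ((b * q : ℕ) * w) := by
    rw [Equiv.Perm.mul_apply, ← e2]
    exact T.symm_apply_apply _
  rw [e5, add_sub_cancel_left]
  refine Dvd.dvd.mul_right (Int.natCast_dvd_natCast.2 ?_) _
  exact mul_dvd_mul_left X (pow_dvd_pow m₁ (le_max_left _ _))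

/-- an expanding return: all points in the class agree in the `m₁ m`-adic integers -/
theorem expanding (hS : S.Finite) (hexp : NoExp S) (hd : Data S M A) (hy : Pro y)
    (hU : URec (Subgroup.closure S) y) {m₁ m X : ℕ} (hm₁ : 0 < m₁) (hm : 0 < m) (hX : 0 < X)
    (hfin : FinKey m₁ (Subgroup.closure S) y) {gs g₀ T : Equiv.Perm ℤ}
    (hTH : T ∈ Subgroup.closure S) {ν : ℚ} (hT : AffAt m₁ X y g₀ T ν) {a b e t : ℕ}
    (ht : 1 ≤ t) (hν : ν * b = a * (m ^ t : ℕ)) (ha : a ∣ m₁ ^ e) (hb : b ∣ m₁ ^ e)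
    (h0 : RX X m₁ y g₀ gs) (h1 : RX X m₁ y (T * g₀) gs) :
    ∀ g1 ∈ Subgroup.closure S, ∀ g2 ∈ Subgroup.closure S, RX X m₁ y g1 gs → RX X m₁ y g2 gs →
      RX 1 (m₁ * m) y g1 g2 := by
  classical
  set H := Subgroup.closure S with hH
  have h01 : RX X m₁ y g₀ gs := h0
  have hto : ∀ g, RX X m₁ y g gs → RX X m₁ y g g₀ := fun g hg => hg.trans hy h0.symm
  -- (a)
  have stepA : ∀ g, RX X m₁ y g gs → RX X m₁ y (T * g) gs := by
    intro g hg
    have e1 := aff_rx hy hm₁ hT hν hb (hto g hg) (RX.refl _ _ _ _) (hto g hg)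
    exact (e1.mono (Dvd.intro _ rfl)).trans hy h1
  have stepA' : ∀ (k : ℕ) (g : Equiv.Perm ℤ), RX X m₁ y g gs → RX X m₁ y (T ^ k * g) gs := by
    intro k
    induction k with
    | zero => intro g hg; simpa using hg
    | succ k ih =>
      intro g hg
      rw [_root_.pow_succ', mul_assoc]
      exact stepA _ (ih g hg)
  have hXt : 0 < X * m ^ t := Nat.mul_pos hX (Nat.pow_pos hm)
  -- (4')
  have stepB : ∀ g ∈ H, RX X m₁ y g gs → RX X m₁ y (T⁻¹ * g) gs := by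
    intro g hg hgg
    by_contra hno
    obtain ⟨P, hP, hP2⟩ := syndetic hd hy hU hm₁ hfin hXt hg
    have hcount := disj_bound hS hexp (B := {g1 | RX (X * m ^ t) m₁ y g1 g}) P hP hP2
      (Finset.range (2 * P.card + 1)) (fun i => T ^ i) (fun i _ => pow_mem hTH i) ?_
    · rw [Finset.card_range] at hcount
      omega
    · have hlt : ∀ i j : ℕ, i < j → ∀ b1, RX (X * m ^ t) m₁ y b1 g → ∀ b2, RX (X * m ^ t) m₁ y b2 g →
          T ^ i * b1 ≠ T ^ j * b2 := by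
        intro i j hij b1 hb1 b2 hb2 heq
        have hb2' : RX X m₁ y b2 gs := (hb2.mono (Dvd.intro _ rfl)).trans hy hgg
        have e1 : b1 = T * (T ^ (j - i - 1) * b2) := by
          have e2 : T ^ j = T ^ i * (T * T ^ (j - i - 1)) := by
            rw [← _root_.pow_succ', ← pow_add]
            congr 1
            omega
          rw [e2, mul_assoc] at heq
          have e3 := mul_left_cancel heq
          rw [e3, mul_assoc]
        have hb3 := stepA' (j - i - 1) b2 hb2'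
        rw [e1] at hb1
        have e4 := aff_rx_inv hy hT hν ha (hto _ hb3) hb1.symm
        exact hno (e4.trans hy hb3)
      intro i _ j _ hij b1 hb1 b2 hb2 heq
      rcases lt_or_gt_of_ne hij with h | h
      · exact hlt i j h b1 hb1 b2 hb2 heq
      · exact hlt j i h b2 hb2 b1 hb1 heq.symm
  -- (c)
  have stepC : ∀ N : ℕ, ∀ g1 ∈ H, ∀ g2 ∈ H, RX X m₁ y g1 gs → RX X m₁ y g2 gs →
      RX (X * (m ^ t) ^ N) m₁ y g1 g2 := by
    intro N
    induction N with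
    | zero =>
      intro g1 _ g2 _ h3 h4
      simpa using h3.trans hy h4.symm
    | succ N ih =>
      intro g1 hg1 g2 hg2 h3 h4
      have f1 := stepB g1 hg1 h3
      have f2 := stepB g2 hg2 h4
      have f3 := ih (T⁻¹ * g1) (mul_mem (inv_mem hTH) hg1) (T⁻¹ * g2) (mul_mem (inv_mem hTH) hg2) f1 f2
      have f4 := aff_rx hy hm₁ hT hν hb (hto _ f1) (hto _ f2) f3
      rw [mul_inv_cancel_left, mul_inv_cancel_left] at f4
      rw [_root_.pow_succ, ← mul_assoc]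
      exact f4
  intro g1 hg1 g2 hg2 h3 h4 j
  obtain ⟨i, hi⟩ := stepC j g1 hg1 g2 hg2 h3 h4 j
  refine ⟨i, fun n hn => dvd_trans (Int.natCast_dvd_natCast.2 ?_) (hi n hn)⟩
  rw [one_mul, mul_pow]
  have e1 : m ^ j ∣ (m ^ t) ^ j := pow_dvd_pow_of_dvd (dvd_pow_self m (by omega)) j
  calc m₁ ^ j * m ^ j ∣ m₁ ^ j * (X * (m ^ t) ^ j) := mul_dvd_mul_left _ (e1.trans (Dvd.intro_left _ rfl))
    _ = X * (m ^ t) ^ j * m₁ ^ j := by ring

/-- from one class to the whole orbit -/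
theorem finKey_of_class (hd : Data S M A) (hCT : ∀ s ∈ S, s ∈ CT) (hy : Pro y)
    {m₁ m' X : ℕ} {gs : Equiv.Perm ℤ} (P : Finset (Equiv.Perm ℤ))
    (hP : ∀ p ∈ P, p ∈ Subgroup.closure S)
    (hP2 : ∀ g ∈ Subgroup.closure S, ∃ p ∈ P, RX X m₁ y (p * g) gs)
    (h : ∀ g1 ∈ Subgroup.closure S, ∀ g2 ∈ Subgroup.closure S, RX X m₁ y g1 gs →
      RX X m₁ y g2 gs → RX 1 m' y g1 g2) : FinKey m' (Subgroup.closure S) y := by
  classical
  have hSCT : Subgroup.closure S ≤ CT := by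
    rw [Subgroup.closure_le]
    exact hCT
  have hR : ∀ p ∈ P, Rcwa p⁻¹ := fun p hp => rcwa_of_CT (hSCT (inv_mem (hP p hp)))
  choose! N hN hN2 using hR
  set Nt := ∏ p ∈ P, N p with hNt
  have hNt0 : 0 < Nt := Finset.prod_pos fun p hp => hN p hp
  choose! p hp hp2 using hP2
  have hex : ∀ g ∈ Subgroup.closure S, ∃ r : ZMod Nt, ∃ i : ℕ, ∀ n : ℤ,
      ((i ! : ℕ) : ℤ) ∣ n - y i → (((p g * g) n : ℤ) : ZMod Nt) = r := fun g hg =>
    exists_resid hd hy (mul_mem (hP _ (hp g hg)) hg) Nt hNt0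
  choose! r hr using hex
  have : NeZero Nt := ⟨hNt0.ne'⟩
  refine ⟨Option P × ZMod Nt, inferInstance,
    fun g => (if h : p g ∈ P then some ⟨p g, h⟩ else none, r g), ?_⟩
  intro g hg g' hg' hk
  rw [Prod.mk.injEq] at hk
  obtain ⟨hk1, hk2⟩ := hk
  rw [dif_pos (hp g hg), dif_pos (hp g' hg')] at hk1
  have hpp : p g = p g' := by simpa using hk1
  -- the points agree
  have hRX : RX 1 m' y (p g * g) (p g * g') := by
    refine h _ (mul_mem (hP _ (hp g hg)) hg) _ (mul_mem (hP _ (hp g hg)) hg') (hp2 g hg) ?_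
    rw [hpp]
    exact hp2 g' hg'
  obtain ⟨i1, h1⟩ := hr g hg
  obtain ⟨i2, h2⟩ := hr g' hg'
  set I := max i1 i2 with hI
  have hnI : ((I ! : ℕ) : ℤ) ∣ y I - y I := by simp
  obtain ⟨σ, τ, _, hστ⟩ := hN2 (p g) (hp g hg) ((p g * g) (y I))
  have hNd : ((N (p g) : ℕ) : ℤ) ∣ ((Nt : ℕ) : ℤ) :=
    Int.natCast_dvd_natCast.2 (Finset.dvd_prod_of_mem N (hp g hg))
  have hq : ∀ g1 ∈ ({g, g'} : Set (Equiv.Perm ℤ)), ∀ n : ℤ, ((I ! : ℕ) : ℤ) ∣ n - y I →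
      ((g1 n : ℤ) : ℚ) = σ * ((p g * g1) n : ℤ) + τ := by
    intro g1 hg1 n hn
    have e1 : (((p g * g) (y I) : ℤ) : ZMod Nt) = r g := h1 _ (pro_deep hy (le_max_left _ _) hnI)
    have e2 : (((p g * g1) n : ℤ) : ZMod Nt) = r g := by
      rcases hg1 with rfl | hg1
      · exact h1 n (pro_deep hy (le_max_left _ _) hn)
      · have : g1 = g' := hg1
        subst this
        rw [hpp, h2 n (pro_deep hy (le_max_right _ _) hn), hk2]
    have e3 : ((Nt : ℕ) : ℤ) ∣ (p g * g1) n - (p g * g) (y I) := by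
      rw [← ZMod.intCast_zmod_eq_zero_iff_dvd, Int.cast_sub, e1, e2, sub_self]
    have e4 := hστ _ (hNd.trans e3)
    rw [← e4]
    congr 1
    rw [Equiv.Perm.mul_apply]
    exact ((p g).symm_apply_apply _).symm
  obtain ⟨E, hE⟩ := dvd_lemma m' σ.den_pos
  intro j
  obtain ⟨i, hi⟩ := hRX (j + E)
  refine ⟨max i I, fun n hn => ?_⟩
  obtain ⟨w, hw⟩ := hi n (pro_deep hy (le_max_left _ _) hn)
  have e1 := hq g (by simp) n (pro_deep hy (le_max_right _ _) hn)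
  have e2 := hq g' (by simp) n (pro_deep hy (le_max_right _ _) hn)
  rw [one_mul]
  refine hE j _ ⟨σ.num * w, ?_⟩
  have h10 : σ * (σ.den : ℚ) = σ.num := Rat.mul_den_eq_num σ
  have e3 : (((σ.den : ℤ) * (g n - g' n) : ℤ) : ℚ) =
      ((((m' ^ (j + E) : ℕ) : ℤ) * (σ.num * w) : ℤ) : ℚ) := by
    simp only [Equiv.Perm.mul_apply] at hw e1 e2
    have e4 : ((p g (g n) : ℤ) : ℚ) - ((p g (g' n) : ℤ) : ℚ) = ((m' ^ (j + E) : ℕ) : ℚ) * w := by
      rw [one_mul] at hw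
      exact_mod_cast hw
    push_cast at e4 ⊢
    rw [e1, e2]
    linear_combination (σ.den : ℚ) * σ * e4 + ((m' : ℚ) ^ (j + E) * w) * h10
  exact_mod_cast e3

end Pool.Agent.LgpE
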