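import Pool.Agent.Lgp.FinOrb
import Pool.Agent.Lgp.FinSl

/-!
# The mixed local criterion
-/

namespace Pool.Agent.LgpE

open Pool.Agent.CTm Pool.Agent.Grm Pool.Agent.Lgp Filter Nat

/-- `g y = g' y` modulo `X` and in the `m`-adic integers: `X m^j` divides the difference for all `j` -/
def RX (X m : ℕ) (y : ℕ → ℤ) (g g' : Equiv.Perm ℤ) : Prop :=
  ∀ j : ℕ, ∃ i : ℕ, ∀ n : ℤ, ((i ! : ℕ) : ℤ) ∣ n - y i → ((X * m ^ j : ℕ) : ℤ) ∣ g n - g' n

/-- the orbit in the `m`-adic integers is finite, in terms of a key -/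
def FinKey (m : ℕ) (H : Subgroup (Equiv.Perm ℤ)) (y : ℕ → ℤ) : Prop :=
  ∃ (α : Type) (_ : Finite α) (key : Equiv.Perm ℤ → α),
    ∀ g ∈ H, ∀ g' ∈ H, key g = key g' → RX 1 m y g g'

variable {S : Set (Equiv.Perm ℤ)} {M : ℕ} {A : Finset (ℚ × ℚ)} {y : ℕ → ℤ}

theorem RX.refl (X m : ℕ) (y : ℕ → ℤ) (g : Equiv.Perm ℤ) : RX X m y g g :=
  fun j => ⟨0, fun n _ => by simp⟩

theorem RX.symm {X m : ℕ} {g g' : Equiv.Perm ℤ} (h : RX X m y g g') : RX X m y g' g := by
  intro j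
  obtain ⟨i, hi⟩ := h j
  refine ⟨i, fun n hn => ?_⟩
  rw [← neg_sub]
  exact (hi n hn).neg_right

theorem RX.trans (hy : Pro y) {X m : ℕ} {g g' g'' : Equiv.Perm ℤ} (h : RX X m y g g')
    (h' : RX X m y g' g'') : RX X m y g g'' := by
  intro j
  obtain ⟨i, hi⟩ := h j
  obtain ⟨i', hi'⟩ := h' j
  refine ⟨max i i', fun n hn => ?_⟩
  have e1 : g n - g'' n = (g n - g' n) + (g' n - g'' n) := by ring
  rw [e1]
  exact dvd_add (hi n (pro_deep hy (le_max_left _ _) hn)) (hi' n (pro_deep hy (le_max_right _ _) hn))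

theorem RX.mono {X X' m : ℕ} (hX : X' ∣ X) {g g' : Equiv.Perm ℤ} (h : RX X m y g g') :
    RX X' m y g g' := by
  intro j
  obtain ⟨i, hi⟩ := h j
  refine ⟨i, fun n hn => ?_⟩
  exact (Int.natCast_dvd_natCast.2 (mul_dvd_mul_right hX _)).trans (hi n hn)

theorem finKey_of_finOrb {m : ℕ} {H : Subgroup (Equiv.Perm ℤ)} (hy : Pro y) (h : FinOrb m H y) :
    FinKey m H y := by
  obtain ⟨k, z, hz⟩ := h
  have hk : Nonempty (Fin k) := by
    obtain ⟨c, _⟩ := hz 1 (one_mem _)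
    exact ⟨c⟩
  choose! c hc using hz
  refine ⟨Fin k, inferInstance, c, ?_⟩
  intro g hg g' hg' h j
  obtain ⟨i1, h1⟩ := hc g hg j
  obtain ⟨i2, h2⟩ := hc g' hg' j
  refine ⟨max i1 i2, fun n hn => ?_⟩
  have e1 := h1 n (pro_deep hy (le_max_left _ _) hn)
  have e2 := h2 n (pro_deep hy (le_max_right _ _) hn)
  rw [← h] at e2
  have e3 : g n - g' n = (g n - z (c g) j) - (g' n - z (c g) j) := by ring
  rw [e3, one_mul]
  exact dvd_sub e1 e2

/-- a finite key for `RX X m` -/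
theorem FinKey.rx (hd : Data S M A) (hy : Pro y) {m : ℕ} (h : FinKey m (Subgroup.closure S) y)
    (X : ℕ) (hX : 0 < X) : ∃ (α : Type) (_ : Finite α) (key : Equiv.Perm ℤ → α),
      ∀ g ∈ Subgroup.closure S, ∀ g' ∈ Subgroup.closure S, key g = key g' → RX X m y g g' := by
  classical
  obtain ⟨N, e, hN, hcop, hXN⟩ := exists_split m X hX
  obtain ⟨α, hα, c, hc⟩ := h
  have hex : ∀ g ∈ Subgroup.closure S, ∃ r : ZMod N, ∃ i : ℕ, ∀ n : ℤ,
      ((i ! : ℕ) : ℤ) ∣ n - y i → ((g n : ℤ) : ZMod N) = r := fun g hg =>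
    exists_resid hd hy hg N hN
  choose! r hr using hex
  have : NeZero N := ⟨hN.ne'⟩
  refine ⟨α × ZMod N, inferInstance, fun g => (c g, r g), ?_⟩
  intro g hg g' hg' h j
  rw [Prod.mk.injEq] at h
  obtain ⟨i1, h1⟩ := hc g hg g' hg' h.1 (j + e)
  obtain ⟨i3, h3⟩ := hr g hg
  obtain ⟨i4, h4⟩ := hr g' hg'
  refine ⟨max i1 (max i3 i4), fun n hn => ?_⟩
  have e1 := h1 n (pro_deep hy (le_max_left _ _) hn)
  have e3 := h3 n (pro_deep hy ((le_max_left _ _).trans (le_max_right _ _)) hn)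
  have e4 := h4 n (pro_deep hy ((le_max_right _ _).trans (le_max_right _ _)) hn)
  have e6 : ((N : ℕ) : ℤ) ∣ g n - g' n := by
    rw [← ZMod.intCast_zmod_eq_zero_iff_dvd, Int.cast_sub, e3, e4, h.2, sub_self]
  rw [one_mul] at e1
  have hcp : IsCoprime ((N : ℕ) : ℤ) ((m ^ (j + e) : ℕ) : ℤ) :=
    Nat.isCoprime_iff_coprime.2 (Nat.Coprime.pow_right _ hcop)
  have e7 := hcp.mul_dvd e6 e1
  rw [← Nat.cast_mul] at e7
  refine dvd_trans (Int.natCast_dvd_natCast.2 ?_) e7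
  have e8 : X * m ^ j ∣ N * m ^ e * m ^ j := mul_dvd_mul_right hXN _
  refine e8.trans (dvd_of_eq ?_)
  ring

/-- division by `v` loses only finitely many digits -/
theorem dvd_lemma (m : ℕ) {v : ℕ} (hv : 0 < v) :
    ∃ E : ℕ, ∀ (j : ℕ) (x : ℤ), ((m ^ (j + E) : ℕ) : ℤ) ∣ (v : ℤ) * x → ((m ^ j : ℕ) : ℤ) ∣ x := by
  obtain ⟨N, e, hN, hcop, hvN⟩ := exists_split m v hv
  refine ⟨e, fun j x hx => ?_⟩
  obtain ⟨w, hw⟩ := hvN
  rcases Nat.eq_zero_or_pos m with rfl | hm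
  · rcases Nat.eq_zero_or_pos j with rfl | hj
    · simp
    · have h0 : (0 : ℕ) ^ (j + e) = 0 := zero_pow (by omega)
      rw [h0] at hx
      have h1 : (v : ℤ) * x = 0 := by simpa using hx
      have h2 : x = 0 := by
        rcases mul_eq_zero.1 h1 with h | h
        · have : v = 0 := by exact_mod_cast h
          omega
        · exact h
      rw [h2]
      simp
  · have h1 : ((m ^ (j + e) : ℕ) : ℤ) ∣ ((N * m ^ e : ℕ) : ℤ) * x := by
      rw [hw]
      have h2 : ((v * w : ℕ) : ℤ) * x = (w : ℤ) * ((v : ℤ) * x) := by push_cast; ring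
      rw [h2]
      exact Dvd.dvd.mul_left hx _
    have h3 : ((m ^ e : ℕ) : ℤ) * ((m ^ j : ℕ) : ℤ) ∣ ((m ^ e : ℕ) : ℤ) * ((N : ℤ) * x) := by
      have h4 : ((m ^ e : ℕ) : ℤ) * ((m ^ j : ℕ) : ℤ) = ((m ^ (j + e) : ℕ) : ℤ) := by
        push_cast
        ring
      have h5 : ((m ^ e : ℕ) : ℤ) * ((N : ℤ) * x) = ((N * m ^ e : ℕ) : ℤ) * x := by
        push_cast
        ring
      rw [h4, h5]
      exact h1
    have hme : ((m ^ e : ℕ) : ℤ) ≠ 0 := by
      have : 0 < m ^ e := Nat.pow_pos hm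
      exact_mod_cast this.ne'
    have h6 := (mul_dvd_mul_iff_left hme).1 h3
    have hcp : IsCoprime ((m ^ j : ℕ) : ℤ) (N : ℤ) :=
      Nat.isCoprime_iff_coprime.2 (Nat.Coprime.pow_left _ hcop.symm)
    exact hcp.dvd_of_dvd_mul_left h6

/-- `RX` is preserved by affine maps -/
theorem RX.step {m : ℕ} (hd : Data S M A) (hy : Pro y) {g g' : Equiv.Perm ℤ}
    (hg : g ∈ Subgroup.closure S) (hg' : g' ∈ Subgroup.closure S) (h : RX 1 m y g g')
    (hM : ∃ i : ℕ, ∀ n : ℤ, ((i ! : ℕ) : ℤ) ∣ n - y i → (M : ℤ) ∣ g n - g' n)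
    {s : Equiv.Perm ℤ} (hs : s ∈ S ∨ s⁻¹ ∈ S) : RX 1 m y (s * g) (s * g') := by
  obtain ⟨c, _, i', hi'⟩ := common_germ hd hy hg hg' hs hM
  obtain ⟨E, hE⟩ := dvd_lemma m c.1.den_pos
  intro j
  obtain ⟨i, hi⟩ := h (j + E)
  refine ⟨max i i', fun n hn => ?_⟩
  have e1 := hi n (pro_deep hy (le_max_left _ _) hn)
  obtain ⟨e2, e3⟩ := hi' n (pro_deep hy (le_max_right _ _) hn)
  rw [one_mul] at e1 ⊢
  refine hE j _ ?_
  have h1 : c.1 * (c.1.den : ℚ) = c.1.num := Rat.mul_den_eq_num c.1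
  have e4 : (c.1.den : ℤ) * ((s * g) n - (s * g') n) = c.1.num * (g n - g' n) := by
    have e5 : (((c.1.den : ℤ) * ((s * g) n - (s * g') n) : ℤ) : ℚ) =
        ((c.1.num * (g n - g' n) : ℤ) : ℚ) := by
      rw [Equiv.Perm.mul_apply, Equiv.Perm.mul_apply]
      push_cast
      rw [e2, e3]
      linear_combination ((g n : ℚ) - g' n) * h1
    exact_mod_cast e5
  rw [e4]
  exact Dvd.dvd.mul_left e1 _

/-- `g y` and `g' y` agree in the `m`-adic integers and have the same `M`-itinerary -/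
def MixRel (S : Set (Equiv.Perm ℤ)) (M m : ℕ) (y : ℕ → ℤ) (g g' : Equiv.Perm ℤ) : Prop :=
  RX 1 m y g g' ∧ ∀ h ∈ Subgroup.closure S, ∃ i : ℕ, ∀ n : ℤ, ((i ! : ℕ) : ℤ) ∣ n - y i →
    (M : ℤ) ∣ h (g n) - h (g' n)

theorem mixRel_good (hd : Data S M A) (hy : Pro y) {m : ℕ} (hm : 2 ≤ m) (F : Finset ℚ)
    (hF0 : ∀ f ∈ F, 0 < f)
    (hF : ∀ g ∈ Subgroup.closure S, ∀ a : ℚ × ℚ, Germ y g a → ∃ f ∈ F, ∃ u v e : ℕ,
      u ∣ m ^ e ∧ v ∣ m ^ e ∧ a.1 * v = f * u)
    (hfin : FinKey m (Subgroup.closure S) y) : GoodRel S y (MixRel S M m y) := by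
  classical
  constructor
  · intro g _
    exact ⟨RX.refl _ _ _ _, fun h _ => ⟨0, fun n _ => by simp⟩⟩
  · intro g _ g' _ h
    refine ⟨h.1.symm, fun k hk => ?_⟩
    obtain ⟨i, hi⟩ := h.2 k hk
    refine ⟨i, fun n hn => ?_⟩
    rw [← neg_sub]
    exact (hi n hn).neg_right
  · intro g _ g' _ g'' _ h h'
    refine ⟨h.1.trans hy h'.1, fun k hk => ?_⟩
    obtain ⟨i, hi⟩ := h.2 k hk
    obtain ⟨i', hi'⟩ := h'.2 k hk
    refine ⟨max i i', fun n hn => ?_⟩
    have e1 : k (g n) - k (g'' n) = (k (g n) - k (g' n)) + (k (g' n) - k (g'' n)) := by ring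
    rw [e1]
    exact dvd_add (hi n (pro_deep hy (le_max_left _ _) hn))
      (hi' n (pro_deep hy (le_max_right _ _) hn))
  · -- finitely many classes
    set D : ℕ := ∏ σ ∈ F, (σ.den * σ.num.natAbs) with hD
    have hD0 : 0 < D := Finset.prod_pos fun σ hσ => Nat.mul_pos σ.den_pos
      (Int.natAbs_pos.2 (Rat.num_pos.2 (hF0 σ hσ)).ne')
    have hDF : ∀ σ ∈ F, (σ.den ∣ D) ∧ (σ.num.natAbs ∣ D) := fun σ hσ =>
      ⟨(Dvd.intro _ rfl).trans (Finset.dvd_prod_of_mem (fun σ : ℚ => σ.den * σ.num.natAbs) hσ),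
        (Dvd.intro_left _ rfl).trans (Finset.dvd_prod_of_mem (fun σ : ℚ => σ.den * σ.num.natAbs) hσ)⟩
    obtain ⟨α, hα, key, hkey⟩ := hfin.rx hd hy (D * D * M) (Nat.mul_pos (Nat.mul_pos hD0 hD0) hd.pos)
    refine ⟨α, hα, key, ?_⟩
    intro g hg g' hg' hk
    have hR := hkey g hg g' hg' hk
    refine ⟨hR.mono (one_dvd _), ?_⟩
    obtain ⟨a, ha0, ha⟩ := exists_germ hd hy hg
    obtain ⟨fa, hfa, ua, va, ea, hua, hva, hsa⟩ := hF g hg a ha
    -- the divisibility from the relation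
    have key2 : ∀ h ∈ Subgroup.closure S, ∀ b : ℚ × ℚ, Germ y (h * g) b → ∀ i0 : ℕ,
        (∀ n : ℤ, ((i0 ! : ℕ) : ℤ) ∣ n - y i0 →
          a.1 * ((h (g n) : ℤ) - (h (g' n) : ℤ) : ℚ) = b.1 * ((g n : ℤ) - (g' n : ℤ) : ℚ)) →
        ∃ i : ℕ, ∀ n : ℤ, ((i ! : ℕ) : ℤ) ∣ n - y i → (M : ℤ) ∣ h (g n) - h (g' n) := by
      intro h hh b hb i0 hi0
      obtain ⟨fb, hfb, ub, vb, eb, hub, hvb, hsb⟩ := hF _ (mul_mem hh hg) b hb
      obtain ⟨i, hi⟩ := hR (ea + eb)
      refine ⟨max i i0, fun n hn => ?_⟩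
      have e1 := hi n (pro_deep hy (le_max_left _ _) hn)
      have e2 := hi0 n (pro_deep hy (le_max_right _ _) hn)
      have h1 : fa * (fa.den : ℚ) = fa.num := Rat.mul_den_eq_num fa
      have h2 : fb * (fb.den : ℚ) = fb.num := Rat.mul_den_eq_num fb
      have hfa0 : 0 < fa.num := Rat.num_pos.2 (hF0 _ hfa)
      have h4 : ((fa.num.natAbs : ℕ) : ℤ) = fa.num := Int.natAbs_of_nonneg hfa0.le
      -- integer relation
      have e3 : (fa.num * ua * (fb.den * vb)) * (h (g n) - h (g' n)) =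
          (fb.num * ub * (fa.den * va)) * (g n - g' n) := by
        have e4 : (((fa.num * ua * (fb.den * vb)) * (h (g n) - h (g' n)) : ℤ) : ℚ) =
            (((fb.num * ub * (fa.den * va)) * (g n - g' n) : ℤ) : ℚ) := by
          push_cast
          rw [← h1, ← h2]
          have e5 : fa * fa.den * ua * (fb.den * vb) * ((h (g n) : ℤ) - (h (g' n) : ℤ) : ℚ) =
              fa.den * (fb.den * vb) * va * (a.1 * ((h (g n) : ℤ) - (h (g' n) : ℤ) : ℚ)) := by
            linear_combination -(fa.den * (fb.den * vb) * ((h (g n) : ℤ) - (h (g' n) : ℤ) : ℚ)) * hsa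
          rw [e5, e2]
          linear_combination (fa.den * fb.den * va * ((g n : ℤ) - (g' n : ℤ) : ℚ)) * hsb
        exact_mod_cast e4
      -- `D D m^(ea + eb)` is a multiple of the coefficient
      have e6 : fa.num.natAbs * ua * (fb.den * vb) ∣ D * D * m ^ (ea + eb) := by
        have e7 : fa.num.natAbs * ua * (fb.den * vb) = (fa.num.natAbs * fb.den) * (ua * vb) := by ring
        rw [e7, pow_add]
        exact mul_dvd_mul (mul_dvd_mul (hDF _ hfa).2 (hDF _ hfb).1) (mul_dvd_mul hua hvb)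
      obtain ⟨w, hw⟩ := e6
      have hwz : ((D * D * m ^ (ea + eb) : ℕ) : ℤ) = (fa.num * ua * (fb.den * vb)) * w := by
        rw [hw]
        simp only [Nat.cast_mul]
        rw [h4]
      have e8 : ((D * D * M * m ^ (ea + eb) : ℕ) : ℤ) ∣
          ((D * D * m ^ (ea + eb) : ℕ) : ℤ) * (h (g n) - h (g' n)) := by
        rw [hwz]
        have e9 : (fa.num * ua * (fb.den * vb)) * (w : ℤ) * (h (g n) - h (g' n)) =
            w * ((fb.num * ub * (fa.den * va)) * (g n - g' n)) := by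
          rw [← e3]
          ring
        rw [e9]
        exact Dvd.dvd.mul_left (Dvd.dvd.mul_left e1 _) _
      have e10 : ((D * D * M * m ^ (ea + eb) : ℕ) : ℤ) = ((D * D * m ^ (ea + eb) : ℕ) : ℤ) * (M : ℤ) := by
        push_cast
        ring
      rw [e10] at e8
      have hne : ((D * D * m ^ (ea + eb) : ℕ) : ℤ) ≠ 0 := by
        have : 0 < D * D * m ^ (ea + eb) := Nat.mul_pos (Nat.mul_pos hD0 hD0) (Nat.pow_pos (by omega))
        exact_mod_cast this.ne'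
      exact (mul_dvd_mul_iff_left hne).1 e8
    -- induction over the word
    have key3 : ∀ l : List (Equiv.Perm ℤ), (∀ x ∈ l, x ∈ S ∨ x⁻¹ ∈ S) →
        ∃ b : ℚ × ℚ, Germ y (l.prod * g) b ∧ ∃ i0 : ℕ, ∀ n : ℤ, ((i0 ! : ℕ) : ℤ) ∣ n - y i0 →
          a.1 * ((l.prod (g n) : ℤ) - (l.prod (g' n) : ℤ) : ℚ) = b.1 * ((g n : ℤ) - (g' n : ℤ) : ℚ) := by
      intro l
      induction l with
      | nil =>
        intro _
        exact ⟨a, by simpa using ha, 0, fun n _ => by simp⟩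
      | cons s l ih =>
        intro hl
        have hl' : ∀ x ∈ l, x ∈ S ∨ x⁻¹ ∈ S := fun x hx => hl x (by simp [hx])
        obtain ⟨b, hb, i0, hi0⟩ := ih hl'
        have hM := key2 l.prod (list_mem hl') b hb i0 hi0
        obtain ⟨c, _, i1, hi1⟩ := common_germ hd hy (mul_mem (list_mem hl') hg)
          (mul_mem (list_mem hl') hg') (hl s (by simp)) hM
        obtain ⟨i2, hi2⟩ := hb.deep hy
        refine ⟨(c.1 * b.1, c.1 * b.2 + c.2), ⟨max i1 i2, fun n hn => ?_⟩, max i1 i0, fun n hn => ?_⟩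
        · have e1 := (hi1 n (pro_deep hy (le_max_left _ _) hn)).1
          have e2 := hi2 _ (le_max_right _ _) n hn
          rw [List.prod_cons, mul_assoc, Equiv.Perm.mul_apply, e1, e2]
          ring
        · obtain ⟨e1, e2⟩ := hi1 n (pro_deep hy (le_max_left _ _) hn)
          have e3 := hi0 n (pro_deep hy (le_max_right _ _) hn)
          rw [List.prod_cons, Equiv.Perm.mul_apply, Equiv.Perm.mul_apply]
          rw [Equiv.Perm.mul_apply] at e1 e2
          rw [e1, e2]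
          linear_combination c.1 * e3
    intro h hh
    obtain ⟨l, hl, rfl⟩ := list_of_closure hh
    obtain ⟨b, hb, i0, hi0⟩ := key3 l hl
    exact key2 _ hh b hb i0 hi0
  · rintro s hs g hg g' hg' ⟨h1, h2⟩
    refine ⟨RX.step hd hy hg hg' h1 (h2 1 (one_mem _)) hs, fun h hh => ?_⟩
    exact h2 (h * s) (mul_mem hh (gen_mem hs))
  · rintro s hs g hg g' hg' ⟨h1, h2⟩
    obtain ⟨c, _, i', hi'⟩ := common_germ hd hy hg hg' hs (h2 1 (one_mem _))
    exact ⟨c, ⟨i', fun n hn => (hi' n hn).1⟩, ⟨i', fun n hn => (hi' n hn).2⟩⟩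
  · rintro h _ g _ ⟨hR, _⟩ τ hτ
    obtain ⟨i, hi⟩ := hτ
    have hn : ((i ! : ℕ) : ℤ) ∣ y i - y i := by simp
    have e1 := hi (y i) hn
    set t : ℤ := h (g (y i)) - g (y i) with ht
    have e2 : τ = t := by
      rw [ht]
      push_cast
      rw [e1]
      ring
    have hdvd : ∀ j : ℕ, ((m ^ j : ℕ) : ℤ) ∣ t := by
      intro j
      obtain ⟨i', hi'⟩ := hR j
      have hn' : (((max i i') ! : ℕ) : ℤ) ∣ y (max i i') - y (max i i') := by simp
      have e3 := hi (y (max i i')) (pro_deep hy (le_max_left _ _) hn')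
      have e4 := hi' (y (max i i')) (pro_deep hy (le_max_right _ _) hn')
      rw [Equiv.Perm.mul_apply, one_mul] at e4
      have e5 : h (g (y (max i i'))) - g (y (max i i')) = t := by
        have e6 : ((h (g (y (max i i'))) - g (y (max i i')) : ℤ) : ℚ) = (t : ℚ) := by
          push_cast
          rw [e3, ← e2]
          ring
        exact_mod_cast e6
      rw [e5] at e4
      exact e4
    have ht0 : t = 0 := by
      by_contra hne
      have h1 := hdvd t.natAbs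
      have h2 := Int.natAbs_dvd_natAbs.2 h1
      rw [Int.natAbs_natCast] at h2
      have h3 := Nat.le_of_dvd (Int.natAbs_pos.2 hne) h2
      have h4 : t.natAbs < m ^ t.natAbs := Nat.lt_pow_self (by omega)
      omega
    rw [e2, ht0]
    simp

/-- the mixed criterion: the orbit in the `m`-adic integers is finite and the slopes are, up to divisors of
powers of `m`, finitely many -/
theorem locAb_mixed {m : ℕ} (hm : 1 ≤ m) (S : Finset (Equiv.Perm ℤ)) (hS : ∀ s ∈ S, s ∈ CT) (hy : Pro y)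
    (F : Finset ℚ)
    (hF : ∀ g ∈ Subgroup.closure (S : Set (Equiv.Perm ℤ)), ∀ a : ℚ × ℚ, Germ y g a →
      ∃ f ∈ F, ∃ u v e : ℕ, u ∣ m ^ e ∧ v ∣ m ^ e ∧ a.1 * v = f * u)
    (h : FinKey m (Subgroup.closure (S : Set (Equiv.Perm ℤ))) y) :
    LocAb (Subgroup.closure (S : Set (Equiv.Perm ℤ))) y := by
  classical
  rcases Nat.lt_or_ge m 2 with hm2 | hm2
  · -- `m = 1`
    have hm1 : m = 1 := by omega
    subst hm1
    refine locAb_of_finSlopes S hS hy ⟨F, fun g hg a ha => ?_⟩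
    obtain ⟨f, hf, u, v, e, hu, hv, huv⟩ := hF g hg a ha
    rw [one_pow, Nat.dvd_one] at hu hv
    rw [hu, hv] at huv
    have : a.1 = f := by simpa using huv
    rw [this]
    exact hf
  · obtain ⟨M, A, hd⟩ := Pool.Agent.Grm.exists_data S hS
    refine (mixRel_good hd hy hm2 (F.filter fun f => 0 < f)
      (fun f hf => (Finset.mem_filter.1 hf).2) ?_ h).locAb hy
    intro g hg a ha
    obtain ⟨f, hf, u, v, e, hu, hv, huv⟩ := hF g hg a ha
    refine ⟨f, Finset.mem_filter.2 ⟨hf, ?_⟩, u, v, e, hu, hv, huv⟩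
    obtain ⟨b, hb, hb'⟩ := exists_germ hd hy hg
    have hab := Germ.unique hy hb' ha
    rw [hab] at hb
    have hpow : 0 < m ^ e := Nat.pow_pos (by omega)
    have hv0 : 0 < v := Nat.pos_of_dvd_of_pos hv hpow
    have hvq : (0 : ℚ) < v := by exact_mod_cast hv0
    by_contra hneg
    have h1 : f * u ≤ 0 := mul_nonpos_of_nonpos_of_nonneg (not_lt.1 hneg) (by positivity)
    have h2 : 0 < a.1 * v := mul_pos hb hvq
    linarith

end Pool.Agent.LgpE
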