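import Pool.Agent.LgpE.Aff

/-!
# Syndetic sets of returns, transfer to limit points
-/

namespace Pool.Agent.LgpE

open Pool.Agent.CTm Pool.Agent.Grm Pool.Agent.Lgp Filter Nat

variable {S : Set (Equiv.Perm ℤ)} {M : ℕ} {A : Finset (ℚ × ℚ)} {y : ℕ → ℤ}

/-- uniform recurrence for the relation `RX` -/
theorem syndetic (hd : Data S M A) (hy : Pro y) (hU : URec (Subgroup.closure S) y) {m₁ : ℕ}
    (hm₁ : 0 < m₁) (hfin : FinKey m₁ (Subgroup.closure S) y) {X : ℕ} (hX : 0 < X)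
    {g₀ : Equiv.Perm ℤ} (hg₀ : g₀ ∈ Subgroup.closure S) :
    ∃ P : Finset (Equiv.Perm ℤ), (∀ p ∈ P, p ∈ Subgroup.closure S) ∧
      ∀ g ∈ Subgroup.closure S, ∃ p ∈ P, RX X m₁ y (p * g) g₀ := by
  classical
  obtain ⟨α, hα, key, hkey⟩ := hfin.rx hd hy X hX
  have : Fintype α := Fintype.ofFinite α
  have hsep : ∀ c : α, ∃ J : ℕ, ∀ g ∈ Subgroup.closure S, key g = c →
      (∃ i : ℕ, ∀ n : ℤ, ((i ! : ℕ) : ℤ) ∣ n - y i → ((X * m₁ ^ J : ℕ) : ℤ) ∣ g n - g₀ n) →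
      RX X m₁ y g g₀ := by
    intro c
    by_cases hex : ∃ g ∈ Subgroup.closure S, key g = c ∧ ¬ RX X m₁ y g g₀
    · obtain ⟨g1, hg1, hk1, hn1⟩ := hex
      unfold RX at hn1
      push Not at hn1
      obtain ⟨J, hJ⟩ := hn1
      refine ⟨J, fun g hg hk hdiv => ?_⟩
      exfalso
      obtain ⟨i, hi⟩ := hdiv
      obtain ⟨i', hi'⟩ := hkey g1 hg1 g hg (hk1.trans hk.symm) J
      obtain ⟨n, hn, hnot⟩ := hJ (max i i')
      refine hnot ?_
      have e1 : g1 n - g₀ n = (g1 n - g n) + (g n - g₀ n) := by ring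
      rw [e1]
      exact dvd_add (hi' n (pro_deep hy (le_max_right _ _) hn))
        (hi n (pro_deep hy (le_max_left _ _) hn))
    · push Not at hex
      exact ⟨0, fun g hg hk _ => hex g hg hk⟩
  choose J hJ using hsep
  set Jm := Finset.univ.sup J with hJm
  set j := X * m₁ ^ Jm with hj
  have hj0 : 0 < j := Nat.mul_pos hX (Nat.pow_pos hm₁)
  obtain ⟨a, _, ha⟩ := exists_germ hd hy hg₀
  obtain ⟨I, hI⟩ := germ_cont hy ha (j !) (Nat.factorial_pos j)
  obtain ⟨P, hP, hP2⟩ := hU (g₀ (y I)) j ⟨g₀, hg₀, I, fun n hn => hI I le_rfl n hn⟩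
  refine ⟨P, hP, fun g hg => ?_⟩
  obtain ⟨p, hp, i, hi⟩ := hP2 g hg
  refine ⟨p, hp, hJ (key (p * g)) (p * g) (mul_mem (hP p hp) hg) rfl ⟨max i I, fun n hn => ?_⟩⟩
  have e1 := hi n (pro_deep hy (le_max_left _ _) hn)
  have e2 := hI I le_rfl n (pro_deep hy (le_max_right _ _) hn)
  have e3 : (p * g) n - g₀ n = ((p * g) n - g₀ (y I)) - (g₀ n - g₀ (y I)) := by ring
  have e4 : ((j ! : ℕ) : ℤ) ∣ (p * g) n - g₀ n := by
    rw [e3]
    exact dvd_sub e1 e2
  refine dvd_trans (Int.natCast_dvd_natCast.2 ?_) e4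
  refine (mul_dvd_mul_left X (pow_dvd_pow m₁ (Finset.le_sup (Finset.mem_univ _)))).trans ?_
  exact Nat.dvd_factorial hj0 le_rfl

/-- a finite orbit in the `m`-adic integers: transfer to limit points -/
theorem FinKey.clo (hd : Data S M A) {x y : ℕ → ℤ} (hx : Pro x) (hy : Pro y)
    (hc : Clo (Subgroup.closure S) x y) {m : ℕ} (hm : 0 < m)
    (h : FinKey m (Subgroup.closure S) x) : FinKey m (Subgroup.closure S) y := by
  classical
  obtain ⟨α, hα, key, hkey⟩ := h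
  choose h hh lev hlev using hc
  have hex : ∀ g : Equiv.Perm ℤ, ∃ c : α, ∀ᶠ n in hyperfilter ℕ, key (g * h n) = c := by
    intro g
    obtain ⟨c, hc⟩ := Ultrafilter.eq_pure_of_finite ((hyperfilter ℕ).map fun n => key (g * h n))
    refine ⟨c, ?_⟩
    have h1 : ({c} : Set α) ∈ (hyperfilter ℕ).map fun n => key (g * h n) := by
      rw [hc]
      exact Ultrafilter.mem_pure.2 (Set.mem_singleton c)
    exact h1
  choose key' hkey' using hex
  refine ⟨α, hα, key', ?_⟩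
  intro g hg g' hg' hgg j
  obtain ⟨a, _, ha⟩ := exists_germ hd hy hg
  obtain ⟨b, _, hb⟩ := exists_germ hd hy hg'
  have hQ : 0 < m ^ j := Nat.pow_pos hm
  obtain ⟨i1, h1⟩ := germ_cont hy ha (m ^ j) hQ
  obtain ⟨i2, h2⟩ := germ_cont hy hb (m ^ j) hQ
  have hev : ∀ᶠ n in (hyperfilter ℕ : Filter ℕ), max i1 i2 ≤ n := by
    refine Filter.mem_hyperfilter_of_finite_compl ?_
    refine (Set.finite_lt_nat (max i1 i2)).subset ?_
    intro n hn
    by_contra hlt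
    refine hn ?_
    show max i1 i2 ≤ n
    exact not_lt.1 hlt
  obtain ⟨N, ⟨hN1, hN2⟩, hN3⟩ := (((hkey' g).and (hkey' g')).and hev).exists
  have hR := hkey (g * h N) (mul_mem hg (hh N)) (g' * h N) (mul_mem hg' (hh N))
    (by rw [hN1, hN2, hgg])
  obtain ⟨i3, h3⟩ := hR j
  set z := x (max i3 (lev N)) with hz
  have hz0 : (((max i3 (lev N)) ! : ℕ) : ℤ) ∣ z - x (max i3 (lev N)) := by simp [hz]
  have e1 := h3 z (pro_deep hx (le_max_left _ _) hz0)
  have e2 := hlev N z (pro_deep hx (le_max_right _ _) hz0)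
  rw [one_mul] at e1
  have e3 := h1 N ((le_max_left _ _).trans hN3) (h N z) e2
  have e4 := h2 N ((le_max_right _ _).trans hN3) (h N z) e2
  refine ⟨N, fun n hn => ?_⟩
  have e5 := h1 N ((le_max_left _ _).trans hN3) n hn
  have e6 := h2 N ((le_max_right _ _).trans hN3) n hn
  have e7 : g n - g' n = (g n - g (y N)) - (g (h N z) - g (y N)) + ((g * h N) z - (g' * h N) z)
      + (g' (h N z) - g' (y N)) - (g' n - g' (y N)) := by
    rw [Equiv.Perm.mul_apply, Equiv.Perm.mul_apply]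
    ring
  rw [e7, one_mul]
  exact dvd_sub (dvd_add (dvd_add (dvd_sub e5 e3) e1) e4) e6

theorem SlIn.pos (hd : Data S M A) (hy : Pro y) {F : Finset ℚ} {m₁ m : ℕ} (hm₁ : 0 < m₁) (hm : 0 < m)
    (h : SlIn F m₁ m (Subgroup.closure S) y) :
    SlIn (F.filter fun f => 0 < f) m₁ m (Subgroup.closure S) y := by
  intro g hg a ha
  obtain ⟨f, hf, u, v, e, k, hu, hv, huv⟩ := h g hg a ha
  refine ⟨f, Finset.mem_filter.2 ⟨hf, ?_⟩, u, v, e, k, hu, hv, huv⟩
  obtain ⟨b, hb, hb'⟩ := exists_germ hd hy hg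
  have hab := Germ.unique hy hb' ha
  rw [hab] at hb
  have hpow : 0 < m₁ ^ e := Nat.pow_pos hm₁
  have hv0 : (0 : ℚ) < v := by exact_mod_cast Nat.pos_of_dvd_of_pos hv hpow
  have hmq : (0 : ℚ) < m := by exact_mod_cast hm
  by_contra hneg
  have h1 : f * u * (m : ℚ) ^ k ≤ 0 :=
    mul_nonpos_of_nonpos_of_nonneg (mul_nonpos_of_nonpos_of_nonneg (not_lt.1 hneg) (by positivity))
      (zpow_nonneg hmq.le k)
  have h2 : 0 < a.1 * v := mul_pos hb hv0
  linarith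

/-- slopes: transfer to limit points -/
theorem SlIn.clo (hd : Data S M A) {x y : ℕ → ℤ} (hx : Pro x)
    (hc : Clo (Subgroup.closure S) x y) {F : Finset ℚ} {m₁ m : ℕ} (hm₁ : 0 < m₁) (hm : 0 < m)
    (h : SlIn F m₁ m (Subgroup.closure S) x) :
    ∃ F' : Finset ℚ, (∀ f ∈ F', 0 < f) ∧ SlIn F' m₁ m (Subgroup.closure S) y := by
  classical
  have hp := h.pos hd hx hm₁ hm
  set F0 := F.filter fun f => 0 < f with hF0
  refine ⟨Finset.image₂ (fun f f' => f / f') F0 F0, ?_, ?_⟩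
  · intro f hf
    obtain ⟨f1, hf1, f2, hf2, rfl⟩ := Finset.mem_image₂.1 hf
    exact div_pos (Finset.mem_filter.1 hf1).2 (Finset.mem_filter.1 hf2).2
  · intro g hg a ha
    obtain ⟨I, hI⟩ := ha
    obtain ⟨h, hh, i, hi⟩ := hc I
    obtain ⟨b, hb0, hb⟩ := exists_germ hd hx hh
    have hgh : Germ x (g * h) (a.1 * b.1, a.1 * b.2 + a.2) := by
      obtain ⟨i', hi'⟩ := hb
      refine ⟨max i i', fun n hn => ?_⟩
      have e1 := hI (h n) (hi n (pro_deep hx (le_max_left _ _) hn))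
      have e2 := hi' n (pro_deep hx (le_max_right _ _) hn)
      rw [Equiv.Perm.mul_apply, e1, e2]
      ring
    obtain ⟨f1, hf1, u1, v1, e1, k1, hu1, hv1, huv1⟩ := hp _ (mul_mem hg hh) _ hgh
    obtain ⟨f2, hf2, u2, v2, e2, k2, hu2, hv2, huv2⟩ := hp _ hh _ hb
    refine ⟨f1 / f2, Finset.mem_image₂_of_mem hf1 hf2, u1 * v2, v1 * u2, e1 + e2, k1 - k2, ?_, ?_, ?_⟩
    · rw [pow_add]
      exact mul_dvd_mul hu1 hv2
    · rw [pow_add]
      exact mul_dvd_mul hv1 hu2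
    · have hf20 : f2 ≠ 0 := (Finset.mem_filter.1 hf2).2.ne'
      have hmq : (m : ℚ) ≠ 0 := by
        have : (0 : ℚ) < m := by exact_mod_cast hm
        exact this.ne'
      have hmk : (m : ℚ) ^ k2 ≠ 0 := zpow_ne_zero _ hmq
      simp only at huv1
      push_cast
      rw [zpow_sub₀ hmq]
      have hb1 : b.1 ≠ 0 := hb0.ne'
      field_simp
      have h5 : a.1 * v1 * u2 * f2 * (m : ℚ) ^ k2 * b.1 = f1 * u1 * v2 * (m : ℚ) ^ k1 * b.1 := by
        calc a.1 * v1 * u2 * f2 * (m : ℚ) ^ k2 * b.1 = (a.1 * b.1 * v1) * (f2 * u2 * (m : ℚ) ^ k2) := by ring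
          _ = (f1 * u1 * (m : ℚ) ^ k1) * (b.1 * v2) := by rw [huv1, huv2]
          _ = _ := by ring
      have h6 := mul_right_cancel₀ hb1 h5
      linear_combination h6

end Pool.Agent.LgpE
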